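import Mathlib

/-! An integral basis of the function field of the fibre, and the norm of a polynomial. -/

namespace Pool.Agent.Lib.MP_651af7_nt.Sl

open MvPolynomial Finset Module
open IntermediateField (adjoin)

variable {k K ι κ : Type} [Field k] [Field K] [Algebra k K] [Fintype ι] [Fintype κ] {ξ : ι → K}
  {σ : κ → K}

/-- `z` has poles of order at most `c` times those of `t`. -/
def Bd (F : IntermediateField k K) (t z : K) (c : ℕ) : Prop :=
  ∀ O : ValuationSubring K, (∀ x : F, algebraMap F K x ∈ O) →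
    O.valuation z ≤ max 1 (O.valuation t) ^ c

theorem Bd.mono {F : IntermediateField k K} {t z : K} {c d : ℕ} (h : Bd F t z c) (hd : c ≤ d) :
    Bd F t z d := fun O hO => (h O hO).trans (pow_le_pow_right₀ (le_max_left _ _) hd)

theorem bd_mem {F : IntermediateField k K} (t : K) {z : K} (hz : z ∈ F) : Bd F t z 0 :=
  fun O hO => by simpa using (O.valuation_le_one_iff _).2 (hO ⟨z, hz⟩)

theorem Bd.mul {F : IntermediateField k K} {t z w : K} {c d : ℕ} (h : Bd F t z c)
    (h' : Bd F t w d) : Bd F t (z * w) (c + d) := fun O hO => by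
  rw [map_mul, pow_add]
  exact mul_le_mul' (h O hO) (h' O hO)

theorem Bd.add {F : IntermediateField k K} {t z w : K} {c d : ℕ} (h : Bd F t z c)
    (h' : Bd F t w d) : Bd F t (z + w) (c + d) := fun O hO =>
  (O.valuation.map_add z w).trans
    (max_le (h.mono (Nat.le_add_right _ _) O hO) (h'.mono (Nat.le_add_left _ _) O hO))

theorem bd_int {F : IntermediateField k K} {t z : K} {A : Subalgebra k K}
    (hA : ∀ a : A, ∃ c, Bd F t a c) (hz : IsIntegral A z) : ∃ c, Bd F t z c := by
  obtain ⟨p, p1, p2⟩ := hz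
  choose c hc using hA
  refine ⟨(range p.natDegree).sup fun j => c (p.coeff j), fun O hO => ?_⟩
  by_contra h
  have h1 := not_le.1 h
  have h2 : 1 < O.valuation z := (one_le_pow₀ (le_max_left _ _)).trans_lt h1
  have h3 : O.valuation z ≠ 0 := (zero_lt_one.trans h2).ne'
  rw [p1.as_sum, Polynomial.eval₂_add, Polynomial.eval₂_finsetSum, Polynomial.eval₂_X_pow] at p2
  have h4 := O.valuation.map_sum_lt (s := range p.natDegree) (pow_ne_zero p.natDegree h3)
    (f := fun j => Polynomial.eval₂ (algebraMap A K) z (Polynomial.C (p.coeff j) * Polynomial.X ^ j))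
    fun j hj => by
      rw [Polynomial.eval₂_mul, Polynomial.eval₂_C, Polynomial.eval₂_X_pow, map_mul, map_pow]
      have h5 := ((hc (p.coeff j)).mono (le_sup (f := fun j => c (p.coeff j)) hj) O hO).trans_lt h1
      refine lt_of_lt_of_le (mul_lt_mul_of_pos_right h5 (pow_pos (zero_lt_one.trans h2) j)) ?_
      rw [← pow_succ']
      exact pow_le_pow_right₀ h2.le (mem_range.1 hj)
  rw [eq_neg_of_add_eq_zero_right p2, Valuation.map_neg, map_pow] at h4
  exact lt_irrefl _ h4

omit [Fintype ι] [Fintype κ] in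
theorem alg_aeval (hσ : ∀ l, IsAlgebraic (Algebra.adjoin k (Set.range ξ)) (σ l))
    (Θ : MvPolynomial (ι ⊕ κ) k) :
    IsAlgebraic (Algebra.adjoin k (Set.range ξ)) (aeval (Sum.elim ξ σ) Θ) := by
  induction Θ using MvPolynomial.induction_on with
  | C a =>
    rw [aeval_C]
    exact isAlgebraic_algebraMap (algebraMap k (Algebra.adjoin k (Set.range ξ)) a)
  | add p q hp hq =>
    rw [map_add]
    exact hp.add hq
  | mul_X p i hp =>
    rw [map_mul, aeval_X]
    refine hp.mul ?_
    cases i with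
    | inl j =>
      exact isAlgebraic_algebraMap
        (⟨ξ j, Algebra.subset_adjoin ⟨j, rfl⟩⟩ : Algebra.adjoin k (Set.range ξ))
    | inr l => exact hσ l

omit [Fintype ι] in
theorem lift_adj (a : Algebra.adjoin k (Set.range ξ)) : ∃ R : MvPolynomial ι k, aeval ξ R = a :=
  (Algebra.adjoin_range_eq_range_aeval k ξ).le a.2

omit [Fintype ι] [Fintype κ] in
theorem aeval_inl (R : MvPolynomial ι k) :
    aeval (Sum.elim ξ σ) (rename (Sum.inl : ι → ι ⊕ κ) R) = aeval ξ R := by
  rw [aeval_rename, Sum.elim_comp_inl]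

omit [Fintype ι] in
theorem exists_bas (F : IntermediateField k K) (i : ι)
    (hF : F = adjoin k (Set.range fun j => ξ j / ξ i)) (ht : Transcendental F (ξ i))
    (hσ : ∀ l, IsAlgebraic (Algebra.adjoin k (Set.range ξ)) (σ l))
    (hK : adjoin k (Set.range (Sum.elim ξ σ)) = ⊤) :
    FiniteDimensional (adjoin F {ξ i}) K ∧
      ∃ (P : Fin (finrank (adjoin F {ξ i}) K) → MvPolynomial (ι ⊕ κ) k) (c : ℕ),
        (∀ d, LinearIndependent F fun q : Fin d × Fin (finrank (adjoin F {ξ i}) K) =>
          ξ i ^ q.1.1 * aeval (Sum.elim ξ σ) (P q.2)) ∧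
        ∀ O : ValuationSubring K, (∀ z : F, algebraMap F K z ∈ O) → ∀ l,
          (ξ i ∈ O → aeval (Sum.elim ξ σ) (P l) ∈ O) ∧
          (ξ i ∉ O → aeval (Sum.elim ξ σ) (P l) / ξ i ^ c ∈ O) := by
  have t0 : ξ i ≠ 0 := fun e => ht (e ▸ isAlgebraic_zero)
  have y1 : ∀ j, ξ j / ξ i ∈ F := fun j => hF ▸ IntermediateField.subset_adjoin _ _ ⟨j, rfl⟩
  set E := adjoin F {ξ i} with hE
  have t1 : ξ i ∈ E := IntermediateField.mem_adjoin_simple_self F (ξ i)
  have x1 : ∀ j, ξ j ∈ E := fun j => by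
    rw [← div_mul_cancel₀ (ξ j) t0]
    exact mul_mem (E.algebraMap_mem ⟨_, y1 j⟩) t1
  have a1 : Algebra.adjoin k (Set.range ξ) ≤ (E.restrictScalars k).toSubalgebra :=
    Algebra.adjoin_le (Set.range_subset_iff.2 x1)
  have s1 : ∀ x ∈ Set.range σ, IsAlgebraic E x := by
    rintro _ ⟨l, rfl⟩
    exact (hσ l).tower_top_of_subalgebra_le a1
  have s2 : adjoin E (Set.range σ) = ⊤ := by
    refine top_le_iff.1 fun z _ => ?_
    have : adjoin k (Set.range (Sum.elim ξ σ)) ≤
        ((adjoin E (Set.range σ)).restrictScalars F).restrictScalars k := by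
      rw [IntermediateField.adjoin_le_iff]
      rintro _ ⟨j | l, rfl⟩
      · exact (adjoin E (Set.range σ)).algebraMap_mem ⟨_, x1 j⟩
      · exact IntermediateField.subset_adjoin E (Set.range σ) ⟨l, rfl⟩
    rw [hK] at this
    exact this IntermediateField.mem_top
  have fd : FiniteDimensional E K := by
    have := IntermediateField.finiteDimensional_adjoin fun x hx => (s1 x hx).isIntegral
    rw [s2] at this
    exact IntermediateField.topEquiv.toLinearEquiv.finiteDimensional
  have s3 : Submodule.span E (Set.range (aeval (R := k) (Sum.elim ξ σ))) = ⊤ := by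
    refine top_le_iff.1 fun z _ => ?_
    have h1 : z ∈ (adjoin E (Set.range σ)).toSubalgebra := s2 ▸ IntermediateField.mem_top
    rw [IntermediateField.adjoin_toSubalgebra_of_isAlgebraic s1, ← Subalgebra.mem_toSubmodule,
      Algebra.adjoin_eq_span] at h1
    refine Submodule.span_mono (fun x hx => ?_) h1
    refine (Submonoid.closure_le (S := (aeval (R := k) (Sum.elim ξ σ)).range.toSubmonoid)).2 ?_ hx
    rintro _ ⟨l, rfl⟩
    exact ⟨X (.inr l), aeval_X _ _⟩
  obtain ⟨f, f1, f2⟩ : ∃ f : Fin (finrank E K) → K,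
      (∀ l, f l ∈ Set.range (aeval (R := k) (Sum.elim ξ σ))) ∧ LinearIndependent E f := by
    obtain ⟨f, f1, -, f2⟩ := Submodule.exists_fun_fin_finrank_span_eq E
      (Set.range (aeval (R := k) (Sum.elim ξ σ)))
    have e : finrank E K = finrank E (Submodule.span E
      (Set.range (aeval (R := k) (Sum.elim ξ σ)))) := by rw [s3, finrank_top]
    exact ⟨f ∘ Fin.cast e, fun l => f1 _, f2.comp _ (Fin.cast_injective e)⟩
  choose Q hQ using f1
  choose a a0 ha using fun l => (alg_aeval hσ (Q l)).exists_integral_multiple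
  choose R hR using fun l => lift_adj (a l)
  have b1 : ∀ l, aeval (Sum.elim ξ σ) (rename Sum.inl (R l) * Q l) = (a l : K) * f l := fun l => by
    rw [map_mul, aeval_inl, hR, hQ]
  have b2 : ∀ x : Algebra.adjoin k (Set.range ξ), ∃ c, Bd F (ξ i) x c := fun x => by
    refine Algebra.adjoin_induction (p := fun x _ => ∃ c, Bd F (ξ i) x c) ?_
      (fun r => ⟨0, bd_mem _ (F.algebraMap_mem r)⟩) ?_ ?_ x.2
    · rintro _ ⟨j, rfl⟩
      rw [← div_mul_cancel₀ (ξ j) t0]
      exact ⟨_, (bd_mem _ (y1 j)).mul (d := 1) fun O _ => by simp⟩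
    · rintro _ _ - - ⟨_, h⟩ ⟨_, h'⟩
      exact ⟨_, h.add h'⟩
    · rintro _ _ - - ⟨_, h⟩ ⟨_, h'⟩
      exact ⟨_, h.mul h'⟩
  choose c hc using fun l => bd_int b2 (ha l)
  refine ⟨fd, fun l => rename Sum.inl (R l) * Q l, univ.sup c, fun d => ?_, fun O hO l => ?_⟩
  · have l1 : LinearIndependent F fun n : ℕ => ξ i ^ n := by
      simpa [Function.comp_def] using (Polynomial.basisMonomials F).linearIndependent.map'
        (Polynomial.aeval (ξ i)).toLinearMap
        (LinearMap.ker_eq_bot.2 (transcendental_iff_injective.1 ht))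
    have l2 : LinearIndependent F fun n : Fin d => (⟨ξ i, t1⟩ : E) ^ n.1 :=
      LinearIndependent.of_comp E.val.toLinearMap (l1.comp _ Fin.val_injective)
    have l3 : LinearIndependent E fun l => (a l : K) * f l :=
      f2.units_smul fun l => Units.mk0 (⟨a l, a1 (a l).2⟩ : E) fun e =>
        a0 l (Subtype.ext (congrArg (fun z : E => (z : K)) e))
    simpa only [b1, IntermediateField.smul_def, IntermediateField.coe_pow, smul_eq_mul] using
      linearIndependent_smul l2 l3
  · have h1 := (hc l).mono (le_sup (mem_univ l)) O hO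
    rw [hQ] at h1
    simp only [b1, ← O.valuation_le_one_iff, not_le]
    refine ⟨fun h => ?_, fun h => ?_⟩
    · rwa [max_eq_left h, one_pow] at h1
    · rw [max_eq_right h.le] at h1
      rw [map_div₀, map_pow]
      exact div_le_one_of_le₀ h1 zero_le

omit [Fintype ι] [Fintype κ] in
theorem exists_norm (hσ : ∀ l, IsAlgebraic (Algebra.adjoin k (Set.range ξ)) (σ l))
    {Θ : MvPolynomial (ι ⊕ κ) k} (h : aeval (Sum.elim ξ σ) Θ ≠ 0) :
    ∃ R : MvPolynomial ι k, aeval ξ R ≠ 0 ∧ ∀ (v : ι → k) (s : κ → k),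
      (∀ P, aeval (Sum.elim ξ σ) P = 0 → eval (Sum.elim v s) P = 0) →
      eval (Sum.elim v s) Θ = 0 → eval v R = 0 := by
  obtain ⟨p, p1, p2⟩ := (alg_aeval hσ Θ).exists_nonzero_coeff_and_aeval_eq_zero
    (mem_nonZeroDivisors_of_ne_zero h)
  choose R hR using fun j => lift_adj (p.coeff j)
  refine ⟨R 0, fun e => p1 (Subtype.ext ((hR 0).symm.trans e)), fun v s h1 h2 => ?_⟩
  have h3 := h1 (∑ j ∈ range (p.natDegree + 1), rename Sum.inl (R j) * Θ ^ j) (by
    rw [← p2, Polynomial.aeval_eq_sum_range, map_sum]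
    refine sum_congr rfl fun j _ => ?_
    rw [map_mul, map_pow, aeval_inl, hR]
    rfl)
  simpa [sum_range_succ', h2, eval_rename] using h3

end Pool.Agent.Lib.MP_651af7_nt.Sl
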