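import Pool.Agent.Lib.MP_651af7_nt.Sl.Core

/-! Points on a hypersurface section of the cone. -/

namespace Pool.Agent.Lib.MP_651af7_nt.Sl

open MvPolynomial Finset Height NumberField Filter Real Module Fc Tb Ds
open IntermediateField (adjoin)
open Rt (Pl av mu)

variable {k : Type} [Field k] {N : ℕ} {J : Ideal (MvPolynomial (Fin N) k)}

theorem hyp_root (w : AbsoluteValue k ℝ) {e : ℕ} {t : k} {z : Fin e → k} {B : ℝ} (hB : 1 ≤ B)
    (hz : ∀ d, w (z d) ≤ B) (h : t ^ e + ∑ d : Fin e, t ^ d.1 * z d = 0) : w t ≤ (e + 1) * B := by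
  by_contra hc
  have h0 : (0 : ℝ) ≤ e := Nat.cast_nonneg e
  have h1 : 1 ≤ w t := by nlinarith [not_le.1 hc]
  have h2 : w t ^ e * w t ≤ ∑ _d : Fin e, w t ^ e * B := by
    have h3 : w t ^ e ≤ ∑ d : Fin e, w (t ^ d.1 * z d) := by
      rw [← map_pow, eq_neg_of_add_eq_zero_left h, w.map_neg]
      exact w.sum_le _ _
    refine (mul_le_mul_of_nonneg_right h3 (w.nonneg t)).trans ?_
    rw [sum_mul]
    refine sum_le_sum fun d _ => ?_
    rw [map_mul, map_pow, mul_right_comm, ← pow_succ]
    exact mul_le_mul (pow_le_pow_right₀ h1 d.2) (hz d) (w.nonneg _) (by positivity)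
  rw [sum_const, card_univ, Fintype.card_fin, nsmul_eq_mul, mul_left_comm] at h2
  have h3 := le_of_mul_le_mul_left h2 (by positivity)
  nlinarith [not_le.1 hc]

theorem exists_dat (hJ : ∀ P ∈ J, ∀ d, homogeneousComponent d P ∈ J)
    (hA : Abelian (J.map (MvPolynomial.map (algebraMap k (AlgebraicClosure k))))) :
    ∃ (F : Type) (_ : Field F) (_ : Algebra k F) (y : Fin N → F) (i : Fin N), y i = 1 ∧
      adjoin k (Set.range y) = ⊤ ∧ Dat J y := by
  obtain ⟨A, _, co, h1, h2⟩ := id hA
  have hp : J.IsPrime := by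
    have := h1.prime
    rw [show J = (J.map (MvPolynomial.map (algebraMap k (AlgebraicClosure k)))).comap _ from
      le_antisymm Ideal.le_comap_map fun P hP => Av.mem_of_map_mem hP]
    exact Ideal.comap_isPrime _ _
  obtain ⟨i, hi⟩ := h1.exists_X
  let L := FractionRing (MvPolynomial (Fin N) k ⧸ J)
  let x : Fin N → L := fun i => algebraMap (MvPolynomial (Fin N) k ⧸ J) L (Ideal.Quotient.mk J (X i))
  have hx : ∀ P, aeval x P = 0 ↔ P ∈ J := fun P => by
    have e : aeval x = (IsScalarTower.toAlgHom k _ L).comp (Ideal.Quotient.mkₐ k J) :=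
      algHom_ext fun i => by simp [x]
    rw [e, AlgHom.comp_apply, IsScalarTower.coe_toAlgHom', FaithfulSMul.algebraMap_eq_zero_iff,
      Ideal.Quotient.mkₐ_eq_mk, Ideal.Quotient.eq_zero_iff_mem]
  have h0 : x i ≠ 0 := fun e => hi (by
    simpa using Ideal.mem_map_of_mem (MvPolynomial.map (algebraMap k (AlgebraicClosure k)))
      ((hx (X i)).1 (by simpa using e)))
  let F := adjoin k (Set.range fun a => (x i)⁻¹ * x a)
  let y : Fin N → F := fun a => ⟨_, IntermediateField.subset_adjoin _ _ ⟨a, rfl⟩⟩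
  have ht : adjoin k (Set.range y) = ⊤ := IntermediateField.lift_injective F (by
    rw [IntermediateField.lift_adjoin, IntermediateField.lift_top, ← Set.range_comp]
    rfl)
  have h3 : y i = 1 := Subtype.ext (inv_mul_cancel₀ h0)
  refine ⟨F, inferInstance, inferInstance, y, i, h3, ht, hJ, hA, ⟨i, h3⟩, fun P d hP => ?_,
    fun z _ => ht ▸ IntermediateField.mem_top⟩
  have h4 : F.val (aeval y P) = (x i)⁻¹ ^ d * aeval x P :=
    (comp_aeval_apply y F.val P).trans (Av.aeval_mul_of_hom hP _ x)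
  rw [← hx, ← map_eq_zero_iff F.val F.val.injective, h4, mul_eq_zero,
    or_iff_right (pow_ne_zero _ (inv_ne_zero h0))]

theorem hyp_bd [NumberField k] {N : ℕ} {J : Ideal (MvPolynomial (Fin N) k)}
    (hJ : ∀ P ∈ J, ∀ d, homogeneousComponent d P ∈ J)
    (hA : Abelian (J.map (MvPolynomial.map (algebraMap k (AlgebraicClosure k)))))
    {R : MvPolynomial (Fin N) k} (hR : R ∉ J) :
    ∃ (Θ : MvPolynomial (Fin N) k) (e : ℕ), Θ.IsHomogeneous e ∧ Θ ∉ J ∧ ∃ c : ℝ, 0 ≤ c ∧
      ∀ S : Finset (FinitePlace k), ∃ C : ℝ, ∀ v : Fin N → k, (∀ P ∈ J, eval v P = 0) →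
        eval v Θ ≠ 0 → eval v R = 0 → logHeight (fun o : Option (Fin N) => o.elim 1 v) ≤
          c * oS S (fun w => |ls v w|) + C := by
  classical
  obtain ⟨F, _, _, y, i, hi, ht, D⟩ := exists_dat hJ hA
  obtain ⟨s, h, hs⟩ := exists_sp ht
  have hom := fun d => homogeneousComponent_isHomogeneous d R
  obtain ⟨e, he, hm⟩ : ∃ e, homogeneousComponent e R ∉ J ∧
      ∀ d, e < d → homogeneousComponent d R ∈ J := by
    obtain ⟨e, h1, h2⟩ := exists_max_image ((range (R.totalDegree + 1)).filter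
      fun d => homogeneousComponent d R ∉ J) id (filter_nonempty_iff.2 (by
        by_contra hc
        push Not at hc
        exact hR (sum_homogeneousComponent R ▸ J.sum_mem hc)))
    refine ⟨e, (mem_filter.1 h1).2, fun d hd => by_contra fun hc => ?_⟩
    refine (h2 d (mem_filter.2
      ⟨mem_range.2 (Nat.lt_succ_of_le (not_lt.1 fun l => hc ?_)), hc⟩)).not_gt hd
    rw [homogeneousComponent_eq_zero _ _ l]
    exact zero_mem _
  have h1 : aeval y (homogeneousComponent e R) ≠ 0 := mt (D.gen _ _ (hom e)).1 he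
  let Z : Fin N × Fin e → F := fun j =>
    aeval y (X j.1 ^ (e - j.2) * homogeneousComponent j.2 R) * (aeval y (homogeneousComponent e R))⁻¹
  obtain ⟨W, hW, h2⟩ := ev_all (fun _ => logHeight_nonneg _) (fun j =>
    D.fal (c := fun _ _ => True) h ⟨Z j, ht ▸ IntermediateField.mem_top⟩) (1 / 2) (by norm_num)
  have h3 : ∀ P, ∀ᶠ p in Fc.gen k y, s p (aeval y P) = eval p P := fun P => by
    filter_upwards [h.aeval y P, eventually_all.2 hs] with p a b
    rw [a, funext b]
  have h4 : ∀ j, ∀ᶠ p in Fc.gen k y, s p (Z j) = eval p (X j.1 ^ (e - j.2) *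
      homogeneousComponent j.2 R) * (eval p (homogeneousComponent e R))⁻¹ := fun j => by
    filter_upwards [h.mul _ _, h.inv (aeval y (homogeneousComponent e R)), h3 _, h3 _] with p a b c d
    exact a.trans (by rw [b, c, d])
  obtain ⟨T, t1, t2⟩ := inter_mem hW ((eventually_all.2 hs).and ((eventually_all.2 h4).and
    ((h.ne h1).and (h3 (homogeneousComponent e R)))))
  obtain ⟨Q, q1, q2⟩ := As.exists_homog i T le_rfl
  refine ⟨X i * Q, _, (isHomogeneous_X k i).mul q1, fun e0 => t1 ?_, 2, zero_le_two, fun S => ?_⟩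
  · have := (D.gen _ _ ((isHomogeneous_X k i).mul q1)).2 e0
    rwa [map_mul, aeval_X, hi, one_mul, q2 _ _ hi] at this
  obtain ⟨C, h2⟩ := h2 S
  refine ⟨2 * (C + iS S fun _ => e), fun v v1 v2 v3 => ?_⟩
  rw [map_mul, eval_X, mul_ne_zero_iff] at v2
  obtain ⟨u, x, u0, rfl, x1⟩ : ∃ (u : k) (x : Fin N → k), u ≠ 0 ∧ (fun a => u * x a) = v ∧ x i = 1 :=
    ⟨v i, fun a => v a / v i, v2.1, funext fun a => mul_div_cancel₀ _ v2.1, div_self v2.1⟩
  have sc : ∀ {P : MvPolynomial (Fin N) k} {d : ℕ}, P.IsHomogeneous d →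
      eval (fun a => u * x a) P = u ^ d * eval x P := fun hP => Av.aeval_mul_of_hom hP u x
  obtain ⟨x2, x3, x4, x5, x6⟩ := t2 x (fun P hP => by
    obtain ⟨P', p1, p2⟩ := As.exists_homog i P le_rfl
    have := v1 P' ((D.gen _ _ p1).1 ((p2 _ _ hi).trans hP))
    rw [sc p1, mul_eq_zero, or_iff_right (pow_ne_zero _ u0)] at this
    exact (p2 k x x1).symm.trans this)
    fun e0 => v2.2 (by rw [sc q1, show eval x Q = 0 from (q2 k x x1).trans e0, mul_zero])
  rw [x6] at x5
  obtain ⟨E, e0, e1, e2⟩ := h2 x x2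
  have r1 : ∑ d ∈ range (e + 1), u ^ d * eval x (homogeneousComponent d R) = 0 := by
    rw [← v3]
    conv_rhs => rw [← sum_homogeneousComponent R, map_sum]
    simp only [← sc (hom _)]
    refine sum_subset (range_subset_range.2 (Nat.succ_le_succ (not_lt.1 fun l => he ?_)))
      fun d _ hd => v1 _ (hm d (by simpa using hd))
    rw [homogeneousComponent_eq_zero _ _ l]
    exact zero_mem _
  have r2 : ∀ a, (u * x a) ^ e + ∑ d : Fin e, (u * x a) ^ d.1 * s x (Z (a, d)) = 0 := fun a => by
    have r3 := congrArg (· * (x a ^ e * (eval x (homogeneousComponent e R))⁻¹)) r1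
    simp only [sum_range_succ, add_mul, sum_mul, zero_mul, sum_range] at r3
    rw [← r3, add_comm]
    congr 1
    · refine sum_congr rfl fun d _ => ?_
      rw [x4, map_mul, map_pow, eval_X, ← pow_mul_pow_sub (x a) d.2.le, mul_pow]
      ring
    · rw [mul_pow]
      field_simp
  have n1 : (fun o : Option (Fin N) => o.elim 1 fun a => u * x a) ≠ 0 := fun e =>
    one_ne_zero (congrFun e none)
  have b1 : iS S (ls fun o : Option (Fin N) => o.elim 1 fun a => u * x a) ≤
      ∑ s, mu s * E s + iS S fun _ => e := by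
    rw [iS, iS, ← sum_add_distrib]
    refine sum_le_sum fun t _ => ?_
    rw [← mul_add]
    refine mul_le_mul_of_nonneg_left (ls_le n1 fun o => ?_) (Nat.cast_nonneg _)
    rcases o with _ | a
    · exact (map_one (av t)).trans_le (one_le_exp (add_nonneg (e0 t) (Nat.cast_nonneg e)))
    · refine (hyp_root (av t) (one_le_exp (e0 t))
        (fun d => (e2 t _ le_rfl (a, d) trivial).trans_eq (mul_one _)) (r2 a)).trans ?_
      rw [add_comm (E t), exp_add]
      exact mul_le_mul_of_nonneg_right (add_one_le_exp _) (exp_pos _).le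
  have b2 : oS S (ls fun o : Option (Fin N) => o.elim 1 fun a => u * x a) ≤
      oS S fun w => |ls (fun a => u * x a) w| := by
    refine oS_mono (fs_ls _) (fs_ls _).abs fun w _ => ls_le n1 fun o => ?_
    rcases o with _ | a
    · exact (map_one w.1).trans_le (one_le_exp (abs_nonneg _))
    · exact (le_exp_ls (fun a => u * x a) w.1 a).trans (exp_le_exp.2 (le_abs_self _))
  have b3 : logHeight (fun i => s x (y i)) ≤
      logHeight fun o : Option (Fin N) => o.elim 1 fun a => u * x a := by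
    rw [funext x3, ← logHeight_smul_eq_logHeight x u0]
    exact logHeight_comp_le some fun o : Option (Fin N) => o.elim 1 fun a => u * x a
  have b4 := ht_split S n1
  beta_reduce at e1
  linarith

end Pool.Agent.Lib.MP_651af7_nt.Sl
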