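import Mathlib

/-! A function with two poles: each pole has degree smaller than the degree of the function. -/

namespace Pool.Agent.Lib.MP_651af7_nt.Sl

open Polynomial Finset Module
open IntermediateField (adjoin)

variable {F K : Type} [Field F] [Field K] [Algebra F K] {t : K}

theorem val_frac (g : adjoin F {t}) :
    ∃ P Q : F[X], aeval t⁻¹ Q ≠ 0 ∧ aeval t⁻¹ P = aeval t⁻¹ Q * g := by
  have h : adjoin F {t} ≤ adjoin F {t⁻¹} := IntermediateField.adjoin_simple_le_iff.2 (by
    simpa using inv_mem (IntermediateField.mem_adjoin_simple_self F t⁻¹))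
  obtain ⟨P, Q, e⟩ := (IntermediateField.mem_adjoin_simple_iff F _).1 (h g.2)
  by_cases hQ : aeval t⁻¹ Q = 0
  · exact ⟨0, 1, by simp, by simp [e, hQ]⟩
  · exact ⟨P, Q, hQ, by rw [e, mul_div_cancel₀ _ hQ]⟩

theorem val_aeval (R : Subring K) (hF : ∀ z : F, algebraMap F K z ∈ R) {x : K} (hx : x ∈ R)
    (P : F[X]) : aeval x P ∈ R := by
  rw [aeval_eq_sum_range]
  exact sum_mem fun i _ => by
    rw [Algebra.smul_def]
    exact mul_mem (hF _) (pow_mem hx _)

/-- Elements of `R` that are independent modulo `1 / t` are independent over `F(t)`. -/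
theorem val_card [FiniteDimensional (adjoin F {t}) K] (R : Subring K)
    (hF : ∀ z : F, algebraMap F K z ∈ R) (h0 : t ≠ 0) (hπ : t⁻¹ ∈ R) {ι : Type} [Fintype ι]
    {w : ι → K} (hw : ∀ i, w i ∈ R) (hi : ∀ c : ι → F, (∑ i, c i • w i) * t ∈ R → c = 0) :
    Fintype.card ι ≤ finrank (adjoin F {t}) K := by
  classical
  have h1 : ∀ (j : ℕ) (p : ι → F[X]), ∑ i, aeval t⁻¹ (p i) * w i = 0 → ∀ i, (p i).coeff j = 0 := by
    have e : ∀ p : ι → F[X], (∑ i, aeval t⁻¹ (p i) * w i) * t =
        ∑ i, aeval t⁻¹ (p i).divX * w i + (∑ i, (p i).coeff 0 • w i) * t := fun p => by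
      rw [sum_mul, sum_mul, ← sum_add_distrib]
      refine sum_congr rfl fun i _ => ?_
      conv_lhs => rw [← divX_mul_X_add (p i)]
      rw [map_add, map_mul, aeval_X, aeval_C, Algebra.smul_def]
      field_simp
    have e0 : ∀ p : ι → F[X], ∑ i, aeval t⁻¹ (p i) * w i = 0 → ∀ i, (p i).coeff 0 = 0 :=
      fun p hp => congrFun (hi _ (by
        have := e p
        rw [hp, zero_mul] at this
        rw [eq_neg_of_add_eq_zero_right this.symm]
        exact neg_mem (sum_mem fun i _ => mul_mem (val_aeval R hF hπ _) (hw i))))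
    intro j
    induction j with
    | zero => exact e0
    | succ j ih =>
      intro p hp i
      rw [← coeff_divX]
      refine ih (fun i => (p i).divX) ?_ i
      simpa [hp, e0 p hp] using (e p).symm
  refine LinearIndependent.fintype_card_le_finrank (b := w)
    (Fintype.linearIndependent_iff.2 fun g hg i => ?_)
  choose P Q hQ hP using fun i => val_frac (g i)
  have e : ∀ i, aeval t⁻¹ (P i * ∏ j ∈ univ.erase i, Q j) = (∏ j, aeval t⁻¹ (Q j)) * g i :=
    fun i => by
      rw [map_mul, map_prod, hP, ← mul_prod_erase univ _ (mem_univ i)]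
      ring
  have h2 : P i * ∏ j ∈ univ.erase i, Q j = 0 := Polynomial.ext fun j =>
    h1 j (fun i => P i * ∏ j ∈ univ.erase i, Q j) (by
      simp only [e, mul_assoc, ← mul_sum]
      exact mul_eq_zero_of_right _ hg) i
  have h3 := e i
  rw [h2, map_zero] at h3
  exact Subtype.ext ((mul_eq_zero.1 h3.symm).resolve_left (prod_ne_zero_iff.2 fun j _ => hQ j))

variable {O O' : ValuationSubring K}

theorem val_const (hO : ∀ z : F, algebraMap F K z ∈ O) {c : F} (hc : c ≠ 0) :
    O.valuation (algebraMap F K c) = 1 := by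
  refine le_antisymm ((O.valuation_le_one_iff _).2 (hO c)) ?_
  have h := (O.valuation_le_one_iff _).2 (hO c⁻¹)
  rwa [map_inv₀, map_inv₀, inv_le_one₀ (by simpa [zero_lt_iff] using hc)] at h

theorem val_unit (hO : ∀ z : F, algebraMap F K z ∈ O) {R : Subring K} (hR : O.toSubring ≤ R)
    {x : K} (h0 : x ≠ 0) (hx : O.valuation x < 1) (hx' : x⁻¹ ∈ R) {P : F[X]} (hP : P ≠ 0) :
    aeval x P ≠ 0 ∧ (aeval x P)⁻¹ ∈ R := by
  obtain ⟨q, e, hq⟩ := exists_eq_pow_rootMultiplicity_mul_and_not_dvd P hP 0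
  rw [map_zero, sub_zero] at e hq
  rw [X_dvd_iff] at hq
  have h1 : O.valuation (aeval x q) = 1 := by
    rw [← divX_mul_X_add q, map_add, map_mul, aeval_X, aeval_C, ← val_const hO hq]
    refine Valuation.map_add_eq_of_lt_right _ ?_
    rw [val_const hO hq, map_mul]
    exact mul_lt_one_of_nonneg_of_lt_one_right ((O.valuation_le_one_iff _).2
      (val_aeval O.toSubring hO ((O.valuation_le_one_iff _).1 hx.le) _)) zero_le hx
  rw [e, map_mul, map_pow, aeval_X, mul_inv, ← inv_pow]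
  refine ⟨mul_ne_zero (pow_ne_zero _ h0) fun h => by simp [h] at h1,
    mul_mem (pow_mem hx' _) (hR ((O.valuation_le_one_iff _).1 ?_))⟩
  rw [map_inv₀, h1, inv_one]

theorem val_lt (ht : t ∉ O) : t ≠ 0 ∧ O.valuation t⁻¹ < 1 := by
  have h := mt (O.valuation_le_one_iff t).1 ht
  refine ⟨fun e => ht (e ▸ O.zero_mem), ?_⟩
  rw [map_inv₀]
  exact inv_lt_one_of_one_lt₀ (not_le.1 h)

/-- The valuation has rank one. -/
theorem val_arch [FiniteDimensional (adjoin F {t}) K] (hO : ∀ z : F, algebraMap F K z ∈ O)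
    (ht : t ∉ O) {a : K} (ha : O.valuation a < 1) (z : K) : ∃ M : ℕ, a ^ M * z ∈ O := by
  classical
  rcases eq_or_ne a 0 with rfl | h0
  · exact ⟨1, by simp⟩
  have haO : a ∈ O := (O.valuation_le_one_iff _).1 ha.le
  let R : Subring K :=
    { carrier := {z | ∃ M : ℕ, a ^ M * z ∈ O}
      mul_mem' := fun {x y} ⟨M, hM⟩ ⟨N, hN⟩ => ⟨M + N, by
        rw [pow_add, mul_mul_mul_comm]; exact mul_mem hM hN⟩
      one_mem' := ⟨0, by simp⟩
      add_mem' := fun {x y} ⟨M, hM⟩ ⟨N, hN⟩ => ⟨M + N, by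
        rw [show a ^ (M + N) * (x + y) = a ^ N * (a ^ M * x) + a ^ M * (a ^ N * y) by ring]
        exact add_mem (mul_mem (pow_mem haO _) hM) (mul_mem (pow_mem haO _) hN)⟩
      zero_mem' := ⟨0, by simp⟩
      neg_mem' := fun {x} ⟨M, hM⟩ => ⟨M, by rw [mul_neg]; exact neg_mem hM⟩ }
  have hR : O.toSubring ≤ R := fun x hx => ⟨0, by simpa using hx⟩
  have hF : ∀ z : F, algebraMap F K z ∈ R := fun z => hR (hO z)
  obtain ⟨t0, t1⟩ := val_lt ht
  have hπ : t⁻¹ ∈ R := hR ((O.valuation_le_one_iff _).1 t1.le)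
  have htR : t ∈ R := by
    by_contra h
    have h1 := val_card (F := F) R hF t0 hπ (ι := Fin (finrank (adjoin F {t}) K + 1))
      (w := fun j => a ^ j.1) (fun j => pow_mem (hR haO) _) fun c hc => by
        by_contra hc0
        have h2 : (ofFn _ c : F[X]) ≠ 0 := fun e => hc0 (injective_ofFn _ (e.trans (map_zero _).symm))
        obtain ⟨h3, h4⟩ := val_unit hO hR h0 ha ⟨1, by simp [h0]⟩ h2
        have e : aeval a (ofFn _ c : F[X]) = ∑ i, c i • a ^ i.1 := by
          simp [ofFn_eq_sum_monomial, aeval_monomial, Algebra.smul_def]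
        refine h ?_
        have := mul_mem h4 (e ▸ hc)
        rwa [inv_mul_cancel_left₀ h3] at this
    simp at h1
  have hE : ∀ g : adjoin F {t}, (g : K) ∈ R := fun g => by
    obtain ⟨P, Q, h1, h2⟩ := val_frac g
    have h3 := (val_unit hO hR (inv_ne_zero t0) t1 (by rwa [inv_inv])
      (P := Q) fun e => h1 (by rw [e, map_zero])).2
    have := mul_mem h3 (val_aeval R hF hπ P)
    rwa [h2, inv_mul_cancel_left₀ h1] at this
  let V := ValuationSubring.ofLE O R hR
  let : Algebra (adjoin F {t}) V :=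
    ((algebraMap (adjoin F {t}) K).codRestrict V.toSubring hE).toAlgebra
  have : IsScalarTower (adjoin F {t}) V K := .of_algebraMap_eq fun _ => rfl
  obtain ⟨y, rfl⟩ := (IsIntegrallyClosed.isIntegral_iff (R := V) (K := K)).1
    (IsIntegral.of_finite (adjoin F {t}) z).tower_top
  exact y.2

theorem val_not_le [FiniteDimensional (adjoin F {t}) K] (hne : O ≠ O')
    (hO : ∀ z : F, algebraMap F K z ∈ O) (ht : t ∉ O) (ht' : t ∉ O') : ∃ x ∈ O, x ∉ O' := by
  by_contra h
  push Not at h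
  obtain ⟨b, h1, h2⟩ := SetLike.exists_of_lt (lt_of_le_of_ne (show O ≤ O' from h) hne)
  obtain ⟨b0, b1⟩ := val_lt h2
  obtain ⟨M, hM⟩ := val_arch hO ht b1 t
  have := mul_mem (pow_mem h1 M) (h _ hM)
  rw [inv_pow, mul_inv_cancel_left₀ (pow_ne_zero _ b0)] at this
  exact ht' this

/-- Weak approximation. -/
theorem val_appr [FiniteDimensional (adjoin F {t}) K] (hne : O ≠ O')
    (hO : ∀ z : F, algebraMap F K z ∈ O) (hO' : ∀ z : F, algebraMap F K z ∈ O') (ht : t ∉ O)
    (ht' : t ∉ O') {ι : Type} [Fintype ι] (b : ι → K) :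
    ∃ e : K, e * t ∈ O ∧ ∀ i, (1 - e) * b i * t ∈ O' := by
  obtain ⟨x, x1, x2⟩ := val_not_le hne hO ht ht'
  obtain ⟨y, y1, y2⟩ := val_not_le hne.symm hO' ht' ht
  obtain ⟨x0, x3⟩ := val_lt x2
  obtain ⟨y0, y3⟩ := val_lt y2
  have ha : O.valuation (x * y⁻¹) < 1 := by
    rw [map_mul]
    exact mul_lt_one_of_nonneg_of_lt_one_right ((O.valuation_le_one_iff _).2 x1) zero_le y3
  have ha' : O'.valuation (y * x⁻¹) < 1 := by
    rw [map_mul]
    exact mul_lt_one_of_nonneg_of_lt_one_right ((O'.valuation_le_one_iff _).2 y1) zero_le x3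
  have hab : x * y⁻¹ * (y * x⁻¹) = 1 := by field_simp
  generalize x * y⁻¹ = a at *
  generalize y * x⁻¹ = a' at *
  obtain ⟨M₀, hM₀⟩ := val_arch hO ht ha t
  choose M hM using fun i => val_arch hO' ht' ha' (b i * t)
  have key : ∀ (U : ValuationSubring K) (u : K) (N : ℕ), U.valuation u < 1 →
      1 + u ^ (N + 1) ≠ 0 ∧ (1 + u ^ (N + 1))⁻¹ ∈ U := fun U u N hu => by
    have h : U.valuation (1 + u ^ (N + 1)) = 1 := Valuation.map_one_add_of_lt _ (by
      rw [map_pow]
      exact pow_lt_one₀ zero_le hu N.succ_ne_zero)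
    exact ⟨fun e => by simp [e] at h, (U.valuation_le_one_iff _).1 (by rw [map_inv₀, h, inv_one])⟩
  obtain ⟨N, h1, h2⟩ : ∃ N, M₀ ≤ N + 1 ∧ ∀ i, M i ≤ N + 1 := ⟨M₀ + ∑ i, M i, by omega, fun i => by
    have := single_le_sum (f := M) (fun _ _ => Nat.zero_le _) (mem_univ i)
    omega⟩
  obtain ⟨k1, k2⟩ := key O a N ha
  obtain ⟨k3, k4⟩ := key O' a' N ha'
  have hp : a ^ (N + 1) * a' ^ (N + 1) = 1 := by rw [← mul_pow, hab, one_pow]
  refine ⟨a ^ (N + 1) * (1 + a ^ (N + 1))⁻¹, ?_, fun i => ?_⟩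
  · obtain ⟨d, hd⟩ := Nat.exists_eq_add_of_le h1
    have := mul_mem (mul_mem k2 (pow_mem ((O.valuation_le_one_iff _).1 ha.le) d)) hM₀
    convert this using 1
    nth_rewrite 1 [hd]
    ring
  · obtain ⟨d, hd⟩ := Nat.exists_eq_add_of_le (h2 i)
    have := mul_mem (mul_mem k4 (pow_mem ((O'.valuation_le_one_iff _).1 ha'.le) d)) (hM i)
    have e : 1 - a ^ (N + 1) * (1 + a ^ (N + 1))⁻¹ = (1 + a' ^ (N + 1))⁻¹ * a' ^ (N + 1) := by
      field_simp
      linear_combination -hp
    convert this using 1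
    rw [e]
    nth_rewrite 2 [hd]
    ring

theorem two_poles {F K : Type} [Field F] [Field K] [Algebra F K] {t : K}
    [FiniteDimensional (adjoin F {t}) K] {O O' : ValuationSubring K} (hne : O ≠ O')
    (hO : ∀ z : F, algebraMap F K z ∈ O) (hO' : ∀ z : F, algebraMap F K z ∈ O') (ht : t ∉ O)
    (ht' : t ∉ O') : ∃ n, n < finrank (adjoin F {t}) K ∧ ∃ b : Fin n → K, ∀ z ∈ O,
      ∃ c : Fin n → F, (z - ∑ i, c i • b i) * t ∈ O := by
  obtain ⟨t0, t1⟩ := val_lt ht
  have π1 : t⁻¹ ∈ O := (O.valuation_le_one_iff _).1 t1.le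
  have π2 : t⁻¹ ∈ O' := (O'.valuation_le_one_iff _).1 (val_lt ht').2.le
  have d1 : ∀ {U : ValuationSubring K} {z : K}, t⁻¹ ∈ U → z * t ∈ U → z ∈ U := fun h1 h2 => by
    have := mul_mem h2 h1
    rwa [mul_inv_cancel_right₀ t0] at this
  have sm : ∀ {U : ValuationSubring K}, (∀ z : F, algebraMap F K z ∈ U) → ∀ (c : F) {z : K},
      z ∈ U → c • z ∈ U := fun h c z hz => by
    rw [Algebra.smul_def]
    exact mul_mem (h c) hz
  let V : Submodule F K := ⟨O.toSubring.toAddSubgroup.toAddSubmonoid, fun c _ hz => sm hO c hz⟩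
  let U : Submodule F K := V.comap (LinearMap.mulRight F t)
  let φ : V →ₗ[F] K ⧸ U := U.mkQ.comp V.subtype
  have hm : 0 < finrank (adjoin F {t}) K := finrank_pos
  have hr : Module.rank F (LinearMap.range φ) ≤ (finrank (adjoin F {t}) K - 1 : ℕ) := by
    refine rank_le fun s hs => ?_
    choose b hb using fun i : s => i.1.2
    obtain ⟨e, e1, e2⟩ := val_appr hne hO hO' ht ht' fun o : Option s => o.elim 1 fun i => b i
    have e3 : (1 - e) * t ∈ O' := by simpa using e2 none
    have e4 : e ∈ O := d1 π1 e1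
    have h := val_card (F := F) (O.toSubring ⊓ O'.toSubring) (fun z => ⟨hO z, hO' z⟩) t0 ⟨π1, π2⟩
      (w := fun o : Option s => o.elim e fun i => (1 - e) * b i) (fun o => ?_) fun c hc => ?_
    · simp only [Fintype.card_option, Fintype.card_coe] at h
      omega
    · cases o with
      | none => exact ⟨e4, by simpa using sub_mem O'.one_mem (d1 π2 e3)⟩
      | some i => exact ⟨mul_mem (sub_mem O.one_mem e4) (b i).2, d1 π2 (e2 (some i))⟩
    obtain ⟨c1, c2⟩ := hc
    simp only [Fintype.sum_option, Option.elim] at c1 c2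
    funext o
    cases o with
    | none =>
      by_contra h0
      have h1 := add_mem (sub_mem c2 (sum_mem (t := univ) fun i _ =>
        sm hO' (c (some i)) (e2 (some i)))) (sm hO' (c none) e3)
      have h2 := sm hO' (c none)⁻¹ h1
      refine ht' ?_
      convert h2 using 1
      simp only [Option.elim, add_mul, sum_mul, smul_mul_assoc, add_sub_cancel_right, ← smul_add,
        inv_smul_smul₀ h0]
      ring
    | some i =>
      refine Fintype.linearIndependent_iff.1 hs (fun i => c (some i)) (Subtype.ext ?_) i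
      have h1 := add_mem (sub_mem c1 (sm hO (c none) e1)) (sum_mem (t := univ) fun i _ =>
        sm hO (c (some i)) (mul_mem e1 (b i).2))
      have h2 : ∑ i, c (some i) • (b i : K) ∈ U := by
        change (∑ i, c (some i) • (b i : K)) * t ∈ O
        simp only [add_mul, sum_mul, smul_mul_assoc, add_sub_cancel_left, ← sum_add_distrib,
          ← smul_add] at h1 ⊢
        simp only [show ∀ x : K, (1 - e) * x * t + e * t * x = x * t from fun x => by ring] at h1
        exact h1
      have h3 : U.mkQ _ = 0 := (Submodule.Quotient.mk_eq_zero U).2 h2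
      simp only [AddSubmonoidClass.coe_finsetSum, SetLike.val_smul, ← hb]
      rw [map_sum] at h3
      exact h3
  have : Module.Finite F (LinearMap.range φ) :=
    Module.rank_lt_aleph0_iff.1 (hr.trans_lt Cardinal.natCast_lt_aleph0)
  let β := finBasis F (LinearMap.range φ)
  choose b hb using fun i => (β i).2
  refine ⟨_, (finrank_le_of_rank_le hr).trans_lt (by omega), fun i => b i, fun z hz =>
    ⟨β.repr ⟨φ ⟨z, hz⟩, _, rfl⟩, ?_⟩⟩
  have h := congrArg Subtype.val (β.sum_repr ⟨φ ⟨z, hz⟩, _, rfl⟩)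
  simp only [AddSubmonoidClass.coe_finsetSum, SetLike.val_smul, ← hb] at h
  refine (show _ ∈ U from (Submodule.Quotient.eq U).1 ?_)
  exact h.symm.trans (map_sum U.mkQ (fun i => _ • (b i : K)) univ).symm

end Pool.Agent.Lib.MP_651af7_nt.Sl
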