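import Pool.Agent.Lib.MP_651af7_nt.Sl.Pt
import Pool.Agent.Lib.MP_651af7_nt.Sl.Val
import Pool.Agent.Lib.MP_651af7_nt.Sl.Bas
import Pool.Agent.Lib.MP_651af7_nt.Sl.Hyp

/-! Integral points on covers of the cone over an abelian variety with two poles. -/

namespace Pool.Agent.Lib.MP_651af7_nt.Sl

open MvPolynomial Finset Height NumberField Filter Real Module Fc Tb Ds
open IntermediateField (adjoin)

variable {k K : Type} [Field k] [NumberField k] [Field K] [Algebra k K] {N q : ℕ}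
  {J : Ideal (MvPolynomial (Fin N) k)} {ξ : Fin N → K} {σ : Fin q → K} {i : Fin N}

theorem ht_all {β : Type} {𝓕 : Filter β} {v : β → K → k} (h : Sp 𝓕 v)
    (hσ : ∀ l, IsAlgebraic (Algebra.adjoin k (Set.range ξ)) (σ l)) : ∃ A : ℝ, 0 ≤ A ∧ ∀ᶠ p in 𝓕,
      logHeight (fun o : Option (Fin N ⊕ Fin q) => o.elim 1 fun s => v p (Sum.elim ξ σ s)) ≤
        A * (1 + logHeight fun o : Option (Fin N) => o.elim 1 fun j => v p (ξ j)) := by
  choose c c0 hc using fun l => ht_alg h (hσ l)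
  have c1 : 0 ≤ ∑ l, c l := sum_nonneg fun l _ => c0 l
  refine ⟨N + (∑ l, c l) * (N + 1), by positivity, (eventually_all.2 hc).mono fun p hp => ?_⟩
  have h1 : ∑ j, logHeight₁ (v p (ξ j)) ≤
      N * logHeight fun o : Option (Fin N) => o.elim 1 fun j => v p (ξ j) :=
    (sum_le_card_nsmul _ _ _ fun j _ => (congrArg logHeight₁ (div_one _).symm).trans_le
      (Av.logHeight₁_div_le (fun o : Option (Fin N) => o.elim 1 fun j => v p (ξ j)) (some j)
        none)).trans_eq (by simp)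
  have h2 := sum_le_sum fun l (_ : l ∈ univ) => hp l
  have h3 := logHeight_nonneg fun o : Option (Fin N) => o.elim 1 fun j => v p (ξ j)
  refine (Av.logHeight_le_sum _).trans ?_
  rw [← sum_mul] at h2
  simp only [Fintype.sum_option, Fintype.sum_sum_type, Option.elim, logHeight₁_one, Sum.elim_inl,
    Sum.elim_inr] at h1 h3 ⊢
  nlinarith [mul_le_mul_of_nonneg_left h1 c1, mul_nonneg c1 h3, Nat.cast_nonneg (α := ℝ) N,
    mul_nonneg c1 (Nat.cast_nonneg (α := ℝ) N)]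

theorem generic (D : Dat J fun j => ξ j / ξ i)
    (hσ : ∀ l, IsAlgebraic (Algebra.adjoin k (Set.range ξ)) (σ l))
    (hK : adjoin k (Set.range (Sum.elim ξ σ)) = ⊤) {O O' : ValuationSubring K} (hO : O ≠ O')
    (hF : ∀ z ∈ adjoin k (Set.range fun j => ξ j / ξ i), z ∈ O ∧ z ∈ O')
    (hi : ξ i ∉ O ∧ ξ i ∉ O') : ∃ W ∈ gen k (Sum.elim ξ σ), ∃ c : ℝ, 0 ≤ c ∧
      ∀ S : Finset (FinitePlace k), ∃ C : ℝ, ∀ p ∈ W,
        logHeight (fun o : Option (Fin N) => o.elim 1 fun j => p (.inl j)) ≤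
          c * oS S (fun w => |ls (fun j => p (.inl j)) w| + log⁺ (⨆ l, w (p (.inr l)))) + C := by
  classical
  have t0 : ξ i ≠ 0 := fun e => hi.1 (e ▸ O.zero_mem)
  obtain ⟨fd, P, c, b1, b2⟩ := exists_bas _ i rfl (fun e => hi.1 (hF _ (D.cl _ e)).1) hσ hK
  have m0 := finrank_pos (R := adjoin (adjoin k (Set.range fun j => ξ j / ξ i)) {ξ i}) (M := K)
  have b3 := fun (U : ValuationSubring K) (hU : ∀ z : adjoin k (Set.range fun j => ξ j / ξ i),
    algebraMap _ K z ∈ U) (ht : ξ i ∉ U) => (eq_or_ne U O).elim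
      (fun e => two_poles (e ▸ hO) hU (fun z => (hF _ z.2).2) ht hi.2)
      fun e => two_poles e hU (fun z => (hF _ z.2).1) ht hi.1
  generalize finrank (adjoin (adjoin k (Set.range fun j => ξ j / ξ i)) {ξ i}) K = m at *
  obtain ⟨d, hd⟩ : ∃ d, d = m * (2 * c + 3) := ⟨_, rfl⟩
  obtain ⟨r, ⟨e⟩⟩ : ∃ r, Nonempty (Fin r ≃ Fin (d + 1) × Fin m) := ⟨_, ⟨finProdFinEquiv.symm⟩⟩
  obtain ⟨s1, s2⟩ := sum_lev e
  obtain ⟨v, h, hv⟩ := exists_sp hK
  let Y : Fin N → adjoin k (Set.range fun j => ξ j / ξ i) := fun a =>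
    ⟨ξ a / ξ i, IntermediateField.subset_adjoin _ _ ⟨a, rfl⟩⟩
  let B : Matrix (Fin r × Fin N) (Fin r) (adjoin k (Set.range fun j => ξ j / ξ i)) :=
    fun u l => if u.1 = l then Y u.2 ^ (e l).1.1 else 0
  let Q : Fin r × Fin N → MvPolynomial (Fin N ⊕ Fin q) k := fun u =>
    X (.inl u.2) ^ (e u.1).1.1 * P (e u.1).2
  have hT : LinearIndependent _ fun l => ξ i ^ (e l).1.1 * aeval (Sum.elim ξ σ) (P (e l).2) :=
    (b1 (d + 1)).comp e e.injective
  have q1 : ∀ u, ∑ l, B u l • (ξ i ^ (e l).1.1 * aeval (Sum.elim ξ σ) (P (e l).2)) =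
      aeval (Sum.elim ξ σ) (Q u) := fun u => by
    simp only [B, ite_smul, zero_smul, sum_ite_eq, mem_univ, if_true]
    simp only [Q, Algebra.smul_def, map_mul, map_pow, aeval_X, Sum.elim_inl, ← mul_assoc, ← mul_pow]
    rw [show algebraMap _ K (Y u.2) * ξ i = ξ u.2 from div_mul_cancel₀ _ t0]
  have q2 : ∀ {R : Type} [CommRing R] (g : adjoin k (Set.range fun j => ξ j / ξ i) → R), g 0 = 0 →
      ∀ a, mne (B.map g) (fun l => (l, a)) = ∏ l, g (Y a ^ (e l).1.1) := fun g hg a => by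
    rw [mne, ← Matrix.det_diagonal]
    refine congrArg _ (Matrix.ext fun l l' => ?_)
    by_cases h : l = l' <;> simp [B, h, hg]
  have r0 : 0 < r := s1 ▸ Nat.mul_pos d.succ_pos m0
  have q3 : aeval (Sum.elim ξ σ) (Q (⟨0, r0⟩, i)) ≠ 0 := by
    simpa [Q] using hT.ne_zero ⟨0, r0⟩
  obtain ⟨D', C₄, p4⟩ := ht_poly Q
  obtain ⟨D'', C₅, p5⟩ := out_poly Q
  obtain ⟨A, A0, p6⟩ := ht_all h hσ
  obtain ⟨W, w1, p1⟩ := slope D h (f := ![1, ξ i]) (fun e => one_ne_zero (congrFun e 0))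
    (u := ![![1], ![ξ i]]) (Fin.forall_fin_two.2 ⟨fun e => one_ne_zero (congrFun e 0),
      fun e => t0 (congrFun e 0)⟩) (δ := fun _ => 1) hT
    (fun U a x o1 o2 _ => loc_bas e hd.ge t0 o1 (b2 U o1) (b3 U o1) o2 x) B
    (e₀ := fun l => (l, i)) (by
      refine (q2 id rfl i).trans_ne (prod_ne_zero_iff.2 fun l _ => pow_ne_zero _ fun e => ?_)
      exact div_ne_zero t0 t0 (congrArg Subtype.val e)) ((q1 _).trans_ne q3)
    (ε := 1 / 2 / (1 + D' * A)) (by positivity)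
  refine ⟨_, inter_mem w1 ((eventually_all.2 hv).and (p6.and (h.zero.and (h.one.and ((h.ne t0).and
    ((h.ne q3).and ((eventually_all.2 fun u => h.aeval (Sum.elim ξ σ) (Q u)).and
      ((eventually_all.2 fun a => h.mul (ξ i) (ξ a / ξ i)).and (eventually_all.2
        fun u : Fin N × Fin r => h.pow (ξ u.1 / ξ i) (e u.2).1.1))))))))),
    2 * (∑ l, (e l).1.1 + 1 + r * D''), by positivity, fun S => ?_⟩
  obtain ⟨C, hC⟩ := p1 S
  refine ⟨2 * (r * C₅ + 1 / 2 / (1 + D' * A) * (D' * A + C₄) + C), ?_⟩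
  rintro p ⟨x1, x2, x3, x4, x5, x6, x7, x8, x9, x10⟩
  have y1 : ∀ j, v p (ξ j) = p (.inl j) := fun j => x2 (.inl j)
  have y2 : ∀ a, p (.inl a) = v p (ξ i) * v p (ξ a / ξ i) := fun a => by
    rw [← x9, mul_div_cancel₀ _ t0, y1]
  have y3 : Sum.elim (fun j => p (.inl j)) (fun l => p (.inr l)) = p := Sum.elim_comp_inl_inr p
  have y4 : (∑ l, (e l).1.1 : ℕ) * logHeight (fun a => v p (ξ a / ξ i)) ≤
      logHeight (mne (B.map fun z => v p z)) := by
    refine le_of_eq_of_le ?_ (logHeight_comp_le (fun (a : Fin N) (l : Fin r) => (l, a)) _)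
    rw [← logHeight_pow]
    refine congrArg _ (funext fun a => ?_)
    rw [Function.comp_apply, q2 _ x4, Pi.pow_apply, ← prod_pow_eq_pow_sum]
    exact prod_congr rfl fun l _ => (x10 (a, l)).symm
  have y5 := hC p x1
  simp only [funext x2] at x3 x8
  have y6 : ∀ w : AbsoluteValue k ℝ, ⨆ a, w (v p (![1, ξ i] a)) = max 1 (w (v p (ξ i))) := fun w => by
    rw [← sup_two]
    exact iSup_congr (Fin.forall_fin_two.2 ⟨congrArg w x5, rfl⟩)
  simp only [y6, q1, x8, Fin.sum_univ_two,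
    Matrix.cons_val_zero, Matrix.cons_val_one, Matrix.cons_val_fin_one, ciSup_unique, pow_one, x5,
    map_one, div_one, Nat.cast_one, one_mul,
    show ls (fun a => v p (![1, ξ i] a)) = _ from funext fun w => congrArg log (y6 w)] at y5
  have y7 := pt x6 (a := i) (by rw [div_self t0, x5]) y2 (by
    have : 2 ≤ r * d := hd ▸ le_trans (by omega) (Nat.mul_le_mul r0 (Nat.mul_le_mul_right _ m0))
    omega) s2 y4 (y5.trans_eq (add_assoc _ _ _))
  have y8 := p5 S (fun j => p (.inl j)) (fun l => p (.inr l))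
  rw [y3] at y8
  have y9 := mul_le_mul_of_nonneg_left (y8 fun e => x7 ((x8 _).trans (congrFun e _)))
    (Nat.cast_nonneg (α := ℝ) r)
  have y10 : logHeight (fun a => v p (ξ a / ξ i)) ≤
      logHeight fun o : Option (Fin N) => o.elim 1 fun j => p (.inl j) := by
    rw [← logHeight_smul_eq_logHeight _ x6]
    exact le_of_eq_of_le (congrArg _ (funext fun a => (y2 a).symm)) 
      (logHeight_comp_le some fun o : Option (Fin N) => o.elim 1 fun j => p (.inl j))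
  have y11 := oS_mono (S := S) (fs_ls fun j => p (.inl j)).abs ((fs_ls fun j => p (.inl j)).abs.add
    (fs_pos fun l => p (.inr l))) fun w _ => le_add_of_nonneg_right posLog_nonneg
  have y12 := mul_le_mul_of_nonneg_left y11 (show (0 : ℝ) ≤ (∑ l, (e l).1.1 : ℕ) + 1 by positivity)
  have y13 := (p4 p).trans (add_le_add_left (mul_le_mul_of_nonneg_left x3 (Nat.cast_nonneg _)) _)
  simp only [y1] at y13
  have y14 := mul_le_mul_of_nonneg_left (add_le_add y10 y13)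
    (show (0 : ℝ) ≤ 1 / 2 / (1 + D' * A) by positivity)
  have y15 := congrArg (· * logHeight fun o : Option (Fin N) => o.elim 1 fun j => p (.inl j))
    (div_mul_cancel₀ (1 / 2 : ℝ) (show 1 + D' * A ≠ 0 by positivity))
  push_cast at y7 y12 ⊢
  linarith

theorem main (k : Type) [Field k] [NumberField k] (N q : ℕ)
    (J : Ideal (MvPolynomial (Fin N) k)) (hJ : ∀ P ∈ J, ∀ d, homogeneousComponent d P ∈ J)
    (hA : Abelian (J.map (MvPolynomial.map (algebraMap k (AlgebraicClosure k)))))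
    (K : Type) [Field K] [Algebra k K] (ξ : Fin N → K) (σ : Fin q → K)
    (hξ : ∀ P, aeval ξ P = 0 ↔ P ∈ J)
    (hσ : ∀ l, IsAlgebraic (Algebra.adjoin k (Set.range ξ)) (σ l))
    (hK : adjoin k (Set.range (Sum.elim ξ σ)) = ⊤) (i : Fin N) (F : IntermediateField k K)
    (hF : F = adjoin k (Set.range fun j => ξ j / ξ i)) (hc : ∀ z : K, IsAlgebraic F z → z ∈ F)
    (O O' : ValuationSubring K) (hO : O ≠ O') (hF' : ∀ z ∈ F, z ∈ O ∧ z ∈ O')
    (hi : ξ i ∉ O ∧ ξ i ∉ O') :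
    ∃ (Θ : MvPolynomial (Fin N) k) (e : ℕ) (c : ℝ), Θ.IsHomogeneous e ∧ Θ ∉ J ∧
      ∀ S : Finset (FinitePlace k), ∃ C : ℝ, ∀ (v : Fin N → k) (s : Fin q → k),
        (∀ P, aeval (Sum.elim ξ σ) P = 0 → eval (Sum.elim v s) P = 0) → eval v Θ ≠ 0 →
        logHeight (fun o : Option (Fin N) => o.elim 1 v) ≤
          c * ∑ᶠ w ∈ (S : Set (FinitePlace k))ᶜ,
            (|log (⨆ j, w (v j))| + log⁺ (⨆ l, w (s l))) + C := by
  subst hF
  have t0 : ξ i ≠ 0 := fun e => hi.1 (e ▸ O.zero_mem)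
  have D : Dat J fun j => ξ j / ξ i := ⟨hJ, hA, ⟨i, div_self t0⟩, fun P d hP => by
    rw [← hξ, ← Av.hom_smul_iff hP (inv_ne_zero t0) ξ]
    exact iff_of_eq (congrArg (fun z => aeval z P = 0) (funext fun j => div_eq_inv_mul _ _)), hc⟩
  obtain ⟨W, ⟨Θ₁, a1, a2⟩, c₁, c1, h1⟩ := generic D hσ hK hO hF' hi
  obtain ⟨R, r1, r2⟩ := exists_norm hσ a1
  obtain ⟨Θ, e, t1, t2, c₂, c2, h2⟩ := hyp_bd hJ hA (mt (hξ R).2 r1)
  refine ⟨Θ, e, c₁ + c₂, t1, t2, fun S => ?_⟩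
  obtain ⟨C₁, h1⟩ := h1 S
  obtain ⟨C₂, h2⟩ := h2 S
  refine ⟨max C₁ C₂, fun v s hz hΘ => ?_⟩
  have n1 := oS_mono (S := S) (fs_ls v).abs ((fs_ls v).abs.add (fs_pos s)) fun w _ =>
    le_add_of_nonneg_right posLog_nonneg
  have n2 : 0 ≤ oS S fun w => |ls v w| := oS_nonneg fun _ => abs_nonneg _
  change _ ≤ _ * oS S (fun w => |ls v w| + log⁺ (⨆ l, w (s l))) + _
  by_cases h0 : eval (Sum.elim v s) Θ₁ = 0
  · have := h2 v (fun P hP => (eval_rename Sum.inl (Sum.elim v s) P).symm.trans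
      (hz _ ((aeval_rename Sum.inl (Sum.elim ξ σ) P).trans ((hξ P).2 hP)))) hΘ (r2 v s hz h0)
    nlinarith [le_max_right C₁ C₂, mul_le_mul_of_nonneg_left n1 c2, mul_nonneg c1 (n2.trans n1)]
  · have := h1 _ (a2 _ hz h0)
    simp only [Sum.elim_inl, Sum.elim_inr] at this
    nlinarith [le_max_left C₁ C₂, mul_nonneg c2 (n2.trans n1)]

end Pool.Agent.Lib.MP_651af7_nt.Sl
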