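import Pool.Agent.Lib.MP_651af7_nt.Fc.Main
import Pool.Agent.Lib.MP_651af7_nt.Fc.RV
import Pool.Agent.Lib.MP_651af7_nt.Tb.Sub
import Pool.Agent.Lib.MP_651af7_nt.Tb.Pl

/-! The inequality of Ru and Vojta with the height of the linear system on the fibre. -/

namespace Pool.Agent.Lib.MP_651af7_nt.Sl

open MvPolynomial Finset Height NumberField Filter Real Module Fc Tb
open IntermediateField (adjoin)
open Rt (Pl av mu)
open Es (vol)
open Ex (lx)

theorem nev_sub {F K κ : Type} [Field F] [Field K] [Algebra F K] [Fintype κ] {f : κ → K} {q s : ℕ}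
    {u : Fin q → Fin s → K} {δ : Fin q → ℕ} (hu : ∀ j l, u j l ∈ mon F f (δ j))
    (hP : Proper F f u δ) {d r : ℕ} {T : Fin r → K} (hT : ∀ l, T l ∈ mon F f d) (M N : ℕ)
    (O : ValuationSubring K) (e : κ) (c : Fin q → Fin s) (o1 : ∀ z : F, algebraMap F K z ∈ O)
    (o2 : Max O f e) (o3 : ∀ j, Max O (u j) (c j)) :
    ∃ G : Matrix (Fin r) (Fin r) F, G.det ≠ 0 ∧ (∏ l, (∑ m, G l m • T m) / f e ^ d) ^ (N + 1) *
      ∏ j, (f e ^ δ j / u j (c j)) ^ (N * ∑ m ∈ range M,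
        finrank F ↥(van F f u δ j d (m + 1) ⊓ Submodule.span F (Set.range T))) ∈ O := by
  classical
  let L := Fintype.linearCombination F T
  have l1 : LinearMap.range L = Submodule.span F (Set.range T) :=
    Fintype.range_linearCombination F T
  have l0 : ∀ x, L x ∈ mon F f d := fun x => Submodule.span_le.2 (Set.range_subset_iff.2 hT)
    (l1 ▸ LinearMap.mem_range_self L x)
  let ψ : (Fin r → F) →ₗ[F] chart F f u e c :=
    ((LinearMap.mulRight F (f e ^ d)⁻¹).comp L).codRestrict (chart F f u e c).toSubmodule fun x =>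
      by simpa [div_eq_mul_inv] using mon_div (l0 x) e c
  have l2 : ∀ x, (ψ x : K) = L x / f e ^ d := fun x => (div_eq_mul_inv _ _).symm
  let φ : Fin q → chart F f u e c := fun j => ⟨_, mon_div (hu j (c j)) e c⟩
  have hO : ∀ z : chart F f u e c, O.valuation z ≤ 1 := fun z => by
    refine (O.valuation_le_one_iff _).2 (Algebra.adjoin_induction ?_ o1
      (fun _ _ _ _ => add_mem) (fun _ _ _ _ => mul_mem) z.2)
    rintro _ (⟨i, rfl⟩ | ⟨j, l, rfl⟩)
    exacts [o2.2 i, (o3 j).2 l]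
  obtain ⟨a, ha⟩ : ∃ a : Fin q → ℕ, ∀ j, ∑ m ∈ range M,
    finrank F ↥(van F f u δ j d (m + 1) ⊓ Submodule.span F (Set.range T)) = a j := ⟨_, fun _ => rfl⟩
  obtain ⟨B, w, ρ, b1, b2, b3, b4⟩ := disc (fun j => O.valuation (φ j)) (fun j => hO _) a N
  obtain ⟨G, n, g1, g2, g3⟩ := wI_basis (hP e c o2.1 (fun j => (o3 j).1) φ fun _ => rfl) ψ
    (fun j m => (van F f u δ j d (m + 1)).comap L) (fun j m x hx => by
      have : ∃ g ∈ chart F f u e c, L x / f e ^ d = (u j (c j) / f e ^ δ j) ^ (m + 1) * g := by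
        refine Submodule.span_induction (fun z hz => hz.2 e c o2.1 fun j => (o3 j).1)
          ⟨0, zero_mem _, by simp⟩ ?_ ?_ (Submodule.mem_comap.1 hx)
        · rintro x y - - ⟨g, k1, k2⟩ ⟨g', k3, k4⟩
          exact ⟨g + g', add_mem k1 k3, by rw [add_div, k2, k4, mul_add]⟩
        · rintro a x - ⟨g, k1, k2⟩
          exact ⟨a • g, Subalgebra.smul_mem _ k1 a, by rw [smul_div_assoc, k2, mul_smul_comm]⟩
      obtain ⟨g, k1, k2⟩ := this
      exact Ideal.mem_span_singleton.2 ⟨⟨g, k1⟩, Subtype.ext ((l2 x).trans k2)⟩) M w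
  have g4 : ∀ l, O.valuation (ψ (G l)) ^ B ≤ ρ ^ n l := fun l => by
    refine Submodule.span_induction
      (p := fun (z : chart F f u e c) _ => O.valuation z ^ B ≤ ρ ^ n l) ?_
      (by simp [b1]) (fun x y _ _ hx hy => ?_) (fun a x _ hx => ?_) (g2 l)
    · rintro _ ⟨β, k1, rfl⟩
      refine le_trans ?_ (pow_le_pow_right_of_le_one' b2 k1)
      rw [SubmonoidClass.coe_finsetProd, map_prod, ← prod_pow, ← prod_pow_eq_pow_sum]
      refine prod_le_prod' fun j _ => ?_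
      rw [SubmonoidClass.coe_pow, map_pow, ← pow_mul, mul_comm, pow_mul, pow_mul]
      exact pow_le_pow_left' (b3 j) _
    · rcases le_max_iff.1 (O.valuation.map_add (x : K) y) with k | k
      exacts [(pow_le_pow_left' k B).trans hx, (pow_le_pow_left' k B).trans hy]
    · rw [smul_eq_mul, MulMemClass.coe_mul, map_mul]
      exact (pow_le_pow_left' (mul_le_of_le_one_left' (hO a)) B).trans hx
  have g5 : ∑ j, w j * a j ≤ ∑ l, n l := by
    refine le_trans (sum_le_sum fun j _ => Nat.mul_le_mul_left _ ?_) g3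
    refine ha j ▸ sum_le_sum fun m _ => ?_
    rw [← l1, inf_comm, ← Submodule.map_comap_eq]
    exact Submodule.finrank_map_le _ _
  have g6 : O.valuation (∏ l, (ψ (G l) : K)) ^ (N + 1) ≤ ∏ j, O.valuation (φ j) ^ (N * a j) := by
    refine (pow_le_pow_iff_left₀ zero_le zero_le b1).1 (le_trans ?_ b4)
    rw [← pow_mul, mul_comm _ B, pow_mul, map_prod, ← prod_pow]
    refine (pow_le_pow_left' (prod_le_prod' fun l _ => g4 l) _).trans ?_
    rw [prod_pow_eq_pow_sum, ← pow_mul, mul_comm]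
    exact pow_le_pow_right_of_le_one' b2 (Nat.mul_le_mul_left _ g5)
  refine ⟨G, g1, (O.valuation_le_one_iff _).1 ?_⟩
  have g7 : ∀ j, O.valuation (φ j) ≠ 0 := fun j =>
    (map_ne_zero _).2 (div_ne_zero (o3 j).1 (pow_ne_zero _ o2.1))
  have g8 : ∀ j, f e ^ δ j / u j (c j) = (φ j : K)⁻¹ := fun j => (inv_div _ _).symm
  simp only [ha, g8, inv_pow, prod_inv_distrib, map_mul, map_inv₀, map_pow, map_prod]
  rw [mul_inv_le_iff₀ (zero_lt_iff.2 (prod_ne_zero_iff.2 fun j _ => pow_ne_zero _ (g7 j))), one_mul]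
  rw [map_prod] at g6
  simpa only [l2, L, Fintype.linearCombination_apply] using g6

variable {k K β : Type} [Field k] [Field K] [Algebra k K] {g : ℕ}
  {J : Ideal (MvPolynomial (Fin g) k)} {y : Fin g → K} {𝓕 : Filter β} {v : β → K → k}

theorem dat_dt (D : Dat J y) : Dt J y := by
  obtain ⟨A, _, co, h1, h2⟩ := D.ab
  have h3 : Bx.Inv (J.map (MvPolynomial.map (algebraMap k (AlgebraicClosure k))))
      (J.map (MvPolynomial.map (algebraMap k (AlgebraicClosure k)))) X X :=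
    ⟨⟨1, fun _ => isHomogeneous_X _ _⟩, fun P hP => by simpa using hP,
      h1.exists_X.imp fun i hi => by simpa using hi, fun i l => by simp [mul_comm]⟩
  exact ⟨⟨D.hom, h1.prime⟩, ⟨g, _, D.ab, X, X, h3, h3⟩, D.one, D.gen, D.cl⟩

variable [NumberField k]

theorem slope (D : Dat J y) (h : Sp 𝓕 v) {κ : Type} [Fintype κ] {f : κ → K} (hf : f ≠ 0)
    {q s : ℕ} {u : Fin q → Fin s → K} (hu : ∀ j, u j ≠ 0) {r d b : ℕ} {δ A : Fin q → ℕ}
    {T : Fin r → K} (hT : LinearIndependent (adjoin k (Set.range y)) T)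
    (hO : ∀ (O : ValuationSubring K) (e : κ) (c : Fin q → Fin s),
      (∀ z : adjoin k (Set.range y), (z : K) ∈ O) → Max O f e → (∀ j, Max O (u j) (c j)) →
      ∃ G : Matrix (Fin r) (Fin r) (adjoin k (Set.range y)), G.det ≠ 0 ∧
        (∏ l, (∑ m, G l m • T m) / f e ^ d) ^ b * ∏ j, (f e ^ δ j / u j (c j)) ^ A j ∈ O)
    {E : Type} [Fintype E] (B : Matrix E (Fin r) (adjoin k (Set.range y))) {e₀ : Fin r → E}
    (hB : mne B e₀ ≠ 0) {i₀ : E} (hz : ∑ m, B i₀ m • T m ≠ 0) {ε : ℝ} (hε : 0 < ε) :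
    ∃ W ∈ 𝓕, ∀ S : Finset (FinitePlace k), ∃ C : ℝ, ∀ p ∈ W,
      ∑ j, A j * iS S (fun w => log ((⨆ i, w (v p (f i))) ^ δ j / ⨆ l, w (v p (u j l)))) +
        b * logHeight (mne (B.map fun z => v p z)) ≤
      b * r * (d * iS S (ls fun i => v p (f i)) + oS S (ls fun i => v p (∑ m, B i m • T m))) +
        ε * (logHeight (fun a => v p (y a)) + logHeight fun i => v p (∑ m, B i m • T m)) + C := by
  obtain ⟨τ, _, G, g1, g2⟩ := D.loc h hf hu hT hO
  obtain ⟨W₁, w1, b1⟩ := (dat_dt D).sub h hT B hB G g1 (ε := ε / 2 / (b + 1)) (by positivity)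
  obtain ⟨W₂, w2, b2⟩ := g2 (ε / 2) (by positivity)
  have w3 : ∀ t l, ∀ᶠ p in 𝓕, v p (∑ m, G t l m • T m) ≠ 0 := fun t l => h.ne fun e =>
    g1 t (Matrix.det_eq_zero_of_row_eq_zero l (Fintype.linearIndependent_iff.1 hT _ e))
  refine ⟨_, inter_mem w1 (inter_mem w2 ((h.ne hz).and ((eventually_all.2 fun t =>
    eventually_all.2 (w3 t)).and (eventually_all.2 fun l => h.ne (hT.ne_zero l))))), fun S => ?_⟩
  obtain ⟨C₁, b1⟩ := b1 S
  obtain ⟨C₂, b2⟩ := b2 S
  refine ⟨b * C₁ + C₂, fun p ⟨p1, p2, p3, p4, p5⟩ => ?_⟩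
  obtain ⟨e, e0, e1, e2⟩ := b2 p p2
  choose t ht using fun s => e2 s _ le_rfl
  have z0 : (fun i => v p (∑ m, B i m • T m)) ≠ 0 := fun e => p3 (congrFun e i₀)
  have c1 := mul_le_mul_of_nonneg_left (b1 p p1 t) (Nat.cast_nonneg (α := ℝ) b)
  have c2 : ∀ s l, lx (av s) (fun m => v p (T m)) (v p (∑ m, G (t s) l m • T m)) =
      lx (av s) (fun i => v p (∑ m, B i m • T m)) (v p (∑ m, G (t s) l m • T m)) +
        (log (⨆ m, av s (v p (T m))) - ls (fun i => v p (∑ m, B i m • T m)) (av s)) := fun s l => by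
    have k1 := ((av s).pos (p4 (t s) l)).ne'
    rw [lx, lx, ls, log_div (((av s).pos (p5 l)).trans_le
      (Finite.le_ciSup (fun m => av s (v p (T m))) l)).ne' k1, log_div (Es.sup_pos _ z0).ne' k1]
    ring
  have c3 := sum_le_sum fun s (_ : s ∈ univ) =>
    mul_le_mul_of_nonneg_left (ht s) (Nat.cast_nonneg (α := ℝ) (mu s))
  have c4 := congrArg (fun t => (b : ℝ) * r * t) (ht_split S z0)
  have d1 : b * (ε / 2 / (b + 1)) ≤ ε / 2 := by
    rw [← mul_div_assoc, div_le_iff₀ (by positivity)]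
    linarith
  have c5 := logHeight_nonneg fun a => v p (y a)
  have c6 := logHeight_nonneg fun i => v p (∑ m, B i m • T m)
  have d2 := mul_le_mul_of_nonneg_right d1 (add_nonneg c5 c6)
  have d3 := mul_nonneg hε.le c6
  simp only [c2, sum_add_distrib, sum_const, card_univ, Fintype.card_fin, nsmul_eq_mul] at c3
  rw [vol] at c1
  simp only [← iS_mul, ← iS_sum]
  simp only [iS, ls, mul_add, mul_sub, sum_add_distrib, sum_sub_distrib, mul_assoc,
    mul_left_comm (mu _ : ℝ) (b : ℝ), mul_left_comm (mu _ : ℝ) (r : ℝ), ← mul_sum (a := (b : ℝ)),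
    ← mul_sum (a := (r : ℝ))] at c1 c3 c4 e1 d2 ⊢
  linarith

end Pool.Agent.Lib.MP_651af7_nt.Sl
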