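import Pool.Agent.Lib.MP_651af7_nt.Ds.Defs

/-! A smooth plane cubic in short Weierstrass form is an abelian variety. -/

namespace Pool.Agent.Lib.MP_651af7_nt.Sl

open MvPolynomial Ds WeierstrassCurve.Affine

/-- The Weierstrass cubic form. -/
noncomputable def cub {R : Type} [CommRing R] (A B : R) : MvPolynomial (Fin 3) R :=
  X 0 ^ 3 + C A * X 0 * X 2 ^ 2 + C B * X 2 ^ 3 - X 1 ^ 2 * X 2

/-- The two addition laws of Bosma and Lenstra, in terms of the products of coordinates. -/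
def bl {R : Type} [CommRing R] (A B : R) (m : Fin 3 → Fin 3 → R) : Fin 2 → Fin 3 → R :=
  ![![(m 0 1 - m 1 0) * (m 1 2 + m 2 1) -
        (m 0 2 - m 2 0) * (A * (m 0 2 + m 2 0) + 3 * B * m 2 2 - m 1 1),
      (m 1 2 - m 2 1) * (A * (m 0 2 + m 2 0) + 3 * B * m 2 2 - m 1 1) -
        (3 * m 0 0 + A * m 2 2) * (m 0 1 - m 1 0),
      (3 * m 0 0 + A * m 2 2) * (m 0 2 - m 2 0) - (m 1 2 + m 2 1) * (m 1 2 - m 2 1)],
    ![(m 0 1 + m 1 0) * (m 1 1 - (A * (m 0 2 + m 2 0) + 3 * B * m 2 2)) -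
        (m 1 2 + m 2 1) * (A * m 0 0 + 3 * B * (m 0 2 + m 2 0) - A * A * m 2 2),
      (3 * m 0 0 + A * m 2 2) * (A * m 0 0 + 3 * B * (m 0 2 + m 2 0) - A * A * m 2 2) +
        (m 1 1 + (A * (m 0 2 + m 2 0) + 3 * B * m 2 2)) *
          (m 1 1 - (A * (m 0 2 + m 2 0) + 3 * B * m 2 2)),
      (m 1 2 + m 2 1) * (m 1 1 + (A * (m 0 2 + m 2 0) + 3 * B * m 2 2)) +
        (m 0 1 + m 1 0) * (3 * m 0 0 + A * m 2 2)]]

variable {L : Type} [Field L] {A B : L}

theorem cub_hom (A B : L) : (cub A B).IsHomogeneous 3 :=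
  ((((isHomogeneous_X L 0).pow 3).add ((((isHomogeneous_X L 0).C_mul A).mul
    ((isHomogeneous_X L 2).pow 2)))).add (((isHomogeneous_X L 2).pow 3).C_mul B)).sub
    (((isHomogeneous_X L 1).pow 2).mul (isHomogeneous_X L 2))

theorem cub_span (A B : L) : ∀ P ∈ Ideal.span {cub A B}, ∀ d,
    homogeneousComponent d P ∈ Ideal.span {cub A B} := fun P hP d => by
  obtain ⟨Q, rfl⟩ := Ideal.mem_span_singleton'.1 hP
  rw [← sum_homogeneousComponent Q, Finset.sum_mul, map_sum]
  refine sum_mem fun i _ => ?_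
  rw [homogeneousComponent_of_mem ((homogeneousComponent_isHomogeneous i Q).mul (cub_hom A B))]
  split_ifs
  exacts [Ideal.mul_mem_left _ _ (Ideal.mem_span_singleton_self _), zero_mem _]

theorem cub_prime (A B : L) : Prime (cub A B) := by
  refine Irreducible.prime ((MulEquiv.irreducible_iff (finSuccEquiv L 2)).1 ?_)
  have e : finSuccEquiv L 2 (cub A B) = Polynomial.X ^ 3 + (Polynomial.C (C A * X 1 ^ 2) *
      Polynomial.X + Polynomial.C (X 1 * (C B * X 1 ^ 2 - X 0 ^ 2))) := by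
    have h1 : finSuccEquiv L 2 (X 1) = Polynomial.C (X 0) := finSuccEquiv_X_succ (j := 0)
    have h2 : finSuccEquiv L 2 (X 2) = Polynomial.C (X 1) := finSuccEquiv_X_succ (j := 1)
    have h3 : ∀ c : L, finSuccEquiv L 2 (C c) = Polynomial.C (C c) := fun c => by
      simp [finSuccEquiv_apply]
    simp only [cub, map_add, map_sub, map_mul, map_pow, finSuccEquiv_X_zero, h1, h2, h3]
    ring
  have hm : (finSuccEquiv L 2 (cub A B)).Monic := by
    rw [e]
    exact Polynomial.monic_X_pow_add (Polynomial.degree_linear_le.trans_lt (by norm_num))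
  have hd : (finSuccEquiv L 2 (cub A B)).degree = 3 := by
    rw [e, Polynomial.degree_add_eq_left_of_degree_lt] <;> rw [Polynomial.degree_X_pow]
    · rfl
    · exact Polynomial.degree_linear_le.trans_lt (by norm_num)
  have hp : Prime (X 1 : MvPolynomial (Fin 2) L) := X_prime
  refine Polynomial.irreducible_of_eisenstein_criterion (P := Ideal.span {X 1})
    ((Ideal.span_singleton_prime hp.ne_zero).2 hp) ?_ (fun n hn => ?_) (by rw [hd]; norm_num) ?_
    hm.isPrimitive
  · rw [hm.leadingCoeff, Ideal.mem_span_singleton]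
    exact hp.not_dvd_one
  · rw [hd] at hn
    have : n < 3 := by exact_mod_cast hn
    rw [e, Ideal.mem_span_singleton]
    interval_cases n <;> simp [Polynomial.coeff_X_pow, Polynomial.coeff_X, Polynomial.coeff_C,
      -map_mul, -map_sub, -map_pow, dvd_mul_of_dvd_right]
  · rw [e, Ideal.span_singleton_pow, Ideal.mem_span_singleton]
    simp only [Polynomial.coeff_add, Polynomial.coeff_X_pow, Polynomial.mul_coeff_zero,
      Polynomial.coeff_X_zero, Polynomial.coeff_C_zero, mul_zero, zero_add, sq]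
    rw [if_neg (by norm_num), zero_add, mul_dvd_mul_iff_left hp.ne_zero,
      dvd_sub_right (by simp [dvd_mul_of_dvd_right]), hp.dvd_mul]
    simp

/-- Coordinates of a point. -/
def cco : Point (⟨0, 0, 0, A, B⟩ : WeierstrassCurve L).toAffine → Fin 3 → L
  | .zero => ![0, 1, 0]
  | .some x y _ => ![x, y, 1]

theorem cub_eq {x y : L} (h : Nonsingular (⟨0, 0, 0, A, B⟩ : WeierstrassCurve L).toAffine x y) :
    B = y ^ 2 - x ^ 3 - A * x := by
  have := (equation_iff _ _).1 h.1
  simp only at this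
  linear_combination -this

open Classical in
theorem bl_add (e : Fin 2) (p q : Point (⟨0, 0, 0, A, B⟩ : WeierstrassCurve L).toAffine) :
    ∃ c, ∀ a, bl A B (fun i j => cco p i * cco q j) e a = c * cco (p + q) a := by
  rcases p with _ | ⟨x, y, h⟩
  · rw [← Point.zero_def, zero_add, Point.zero_def]
    rcases q with _ | ⟨x, y, h⟩
    · exact ⟨![0, 1] e, fun a => by fin_cases e <;> fin_cases a <;> simp [bl, cco]⟩
    · exact ⟨![-1, y] e, fun a => by fin_cases e <;> fin_cases a <;> simp [bl, cco, mul_comm]⟩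
  rcases q with _ | ⟨x', y', h'⟩
  · rw [← Point.zero_def, add_zero, Point.zero_def]
    exact ⟨![1, y] e, fun a => by fin_cases e <;> fin_cases a <;> simp [bl, cco, mul_comm]⟩
  by_cases hxy : x = x' ∧ y = negY (⟨0, 0, 0, A, B⟩ : WeierstrassCurve L).toAffine x' y'
  · rw [Point.add_of_Y_eq hxy.1 hxy.2, Point.zero_def]
    obtain ⟨rfl, h2⟩ := hxy
    obtain rfl : y = -y' := by simpa [negY] using h2
    refine ⟨bl A B (fun i j => ![x, -y', 1] i * ![x, y', 1] j) e 1, fun a => ?_⟩
    fin_cases e <;> fin_cases a <;> simp [bl, cco, -mul_eq_zero] <;> ring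
  rw [Point.add_some hxy]
  obtain ⟨l, hl⟩ : ∃ l, l = slope (⟨0, 0, 0, A, B⟩ : WeierstrassCurve L).toAffine x x' y y' :=
    ⟨_, rfl⟩
  have b1 := cub_eq h
  have b2 := cub_eq h'
  have k : y' = y + l * (x' - x) ∧ A = l * (y + y') - (x ^ 2 + x * x' + x' ^ 2) := by
    by_cases hx : x = x'
    · have hy := fun e => hxy ⟨hx, e⟩
      have := Y_eq_of_Y_ne h.1 h'.1 hx hy
      rw [slope_of_Y_ne hx hy] at hl
      subst hx this
      rw [eq_div_iff (sub_ne_zero.2 hy)] at hl
      simp only [negY] at hl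
      exact ⟨by ring, by linear_combination -hl⟩
    · rw [slope_of_X_ne hx, eq_div_iff (sub_ne_zero.2 hx)] at hl
      refine ⟨by linear_combination hl, mul_left_cancel₀ (sub_ne_zero.2 hx) ?_⟩
      linear_combination b1 - b2 - (y + y') * hl
  refine ⟨bl A B (fun i j => ![x, y, 1] i * ![x', y', 1] j) e 2, fun a => ?_⟩
  simp only [cco, ← hl, addX, addY, negAddY, negY]
  clear hl hxy h h' b2
  obtain ⟨rfl, rfl⟩ := k
  subst b1
  fin_cases e <;> fin_cases a <;> simp [bl] <;> ring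

theorem bl_ne [CharZero L] (p q : Point (⟨0, 0, 0, A, B⟩ : WeierstrassCurve L).toAffine) :
    ∃ e a, bl A B (fun i j => cco p i * cco q j) e a ≠ 0 := by
  rcases p with _ | ⟨x, y, h⟩
  · rcases q with _ | ⟨x, y, h⟩
    · exact ⟨1, 1, by simp [bl, cco]⟩
    · exact ⟨0, 2, by simp [bl, cco]⟩
  rcases q with _ | ⟨x', y', h'⟩
  · exact ⟨0, 2, by simp [bl, cco]⟩
  have b1 := cub_eq h
  have b2 := cub_eq h'
  by_contra! hc
  have c1 := hc 0 2
  have c2 := hc 0 1
  have c3 := hc 1 2
  have c4 := hc 1 1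
  simp only [bl, cco, Matrix.cons_val_zero, Matrix.cons_val_one, Matrix.cons_val_two,
    Matrix.cons_val_fin_one, Matrix.head_cons, Matrix.tail_cons] at c1 c2 c3 c4
  obtain rfl : x = x' := sub_eq_zero.1 (pow_eq_zero_iff (n := 3) (by norm_num) |>.1
    (by linear_combination -c1 + b1 - b2))
  obtain rfl : y = y' := sub_eq_zero.1 (pow_eq_zero_iff (n := 3) (by norm_num) |>.1
    (by linear_combination c2 - 3 * (y - y') * b1 + (y' - 2 * y) * (b2 - b1)))
  obtain rfl : y = 0 := pow_eq_zero_iff (n := 3) (by norm_num) |>.1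
    (mul_left_cancel₀ (a := 8) (by norm_num) (by linear_combination c3 - 6 * y * b1))
  have := ((nonsingular_iff' _ _).1 h).2
  simp only [zero_mul, mul_zero, add_zero, ne_eq, not_true, or_false] at this
  subst b1
  refine this (pow_eq_zero_iff (n := 3) (by norm_num) |>.1 (by linear_combination c4))

theorem bl_neg (p q : Point (⟨0, 0, 0, A, B⟩ : WeierstrassCurve L).toAffine) :
    bl A B (fun i j => cco p i * (![1, -1, 1] j * cco q j)) =
      bl A B fun i j => cco p i * cco (-q) j := by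
  rcases q with _ | ⟨x, y, h⟩
  · rw [← Point.zero_def, Point.neg_zero, Point.zero_def]
    funext e a
    fin_cases e <;> fin_cases a <;> simp [bl, cco]
  · rw [Point.neg_some]
    congr 1
    funext i j
    fin_cases j <;> simp [cco, negY]

theorem bl_map {R T : Type} [CommRing R] [CommRing T] (f : R →+* T) (A B : R)
    (m : Fin 3 → Fin 3 → R) (e : Fin 2) (a : Fin 3) :
    f (bl A B m e a) = bl (f A) (f B) (fun i j => f (m i j)) e a := by
  fin_cases e <;> fin_cases a <;> simp [bl, map_ofNat]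

theorem bl_hom {τ : Type} {w : τ → ℕ × ℕ} {m : Fin 3 → Fin 3 → MvPolynomial τ L}
    (hm : ∀ i j, (m i j).IsWeightedHomogeneous w (1, 1)) (e : Fin 2) (a : Fin 3) :
    (bl (C A) (C B) m e a).IsWeightedHomogeneous w ((1, 1) + (1, 1)) := by
  have ad : ∀ {d} {p q : MvPolynomial τ L}, p.IsWeightedHomogeneous w d →
    q.IsWeightedHomogeneous w d → (p + q).IsWeightedHomogeneous w d := IsWeightedHomogeneous.add
  have sb : ∀ {d} {p q : MvPolynomial τ L}, p.IsWeightedHomogeneous w d →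
      q.IsWeightedHomogeneous w d → (p - q).IsWeightedHomogeneous w d := fun hp hq =>
    (weightedHomogeneousSubmodule L w _).sub_mem hp hq
  have c0 : ∀ {p : MvPolynomial τ L} (c : L), p.IsWeightedHomogeneous w (1, 1) →
    (C c * p).IsWeightedHomogeneous w (1, 1) := fun c hp => hp.C_mul c
  have e3 : (3 : MvPolynomial τ L) = C 3 := (map_ofNat C 3).symm
  have u := ad (c0 A (ad (hm 0 2) (hm 2 0))) (c0 (3 * B) (hm 2 2))
  have v := ad (c0 3 (hm 0 0)) (c0 A (hm 2 2))
  have z := sb (ad (c0 A (hm 0 0)) (c0 (3 * B) (ad (hm 0 2) (hm 2 0)))) (c0 (A * A) (hm 2 2))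
  simp only [C_mul, ← e3] at u v z
  fin_cases e <;> fin_cases a
  exacts [sb ((sb (hm 0 1) (hm 1 0)).mul (ad (hm 1 2) (hm 2 1)))
      ((sb (hm 0 2) (hm 2 0)).mul (sb u (hm 1 1))),
    sb ((sb (hm 1 2) (hm 2 1)).mul (sb u (hm 1 1))) (v.mul (sb (hm 0 1) (hm 1 0))),
    sb (v.mul (sb (hm 0 2) (hm 2 0))) ((ad (hm 1 2) (hm 2 1)).mul (sb (hm 1 2) (hm 2 1))),
    sb ((ad (hm 0 1) (hm 1 0)).mul (sb (hm 1 1) u)) ((ad (hm 1 2) (hm 2 1)).mul z),
    ad (v.mul z) ((ad (hm 1 1) u).mul (sb (hm 1 1) u)),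
    ad ((ad (hm 1 2) (hm 2 1)).mul (ad (hm 1 1) u)) ((ad (hm 0 1) (hm 1 0)).mul v)]

open Classical in
theorem cub_abelian [CharZero L] (hΔ : 4 * A ^ 3 + 27 * B ^ 2 ≠ 0) :
    Abelian (Ideal.span {cub A B}) := by
  refine ⟨Point (⟨0, 0, 0, A, B⟩ : WeierstrassCurve L).toAffine, inferInstance, cco,
    ⟨(Ideal.span_singleton_prime (cub_prime A B).ne_zero).2 (cub_prime A B), cub_span A B,
      fun p e => ?_, fun p P hP => ?_, fun v hv h => ?_⟩, fun p₀ q₀ => ?_⟩
  · rcases p with _ | ⟨x, y, h⟩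
    exacts [one_ne_zero (congrFun e 1), one_ne_zero (congrFun e 2)]
  · obtain ⟨Q, rfl⟩ := Ideal.mem_span_singleton'.1 hP
    rw [map_mul]
    refine mul_eq_zero_of_right _ ?_
    rcases p with _ | ⟨x, y, h⟩
    · simp [cub, cco]
    · simp [cub, cco]
      linear_combination cub_eq h
  · have h1 := h _ (Ideal.mem_span_singleton_self _)
    simp only [cub, map_add, map_sub, map_mul, map_pow, eval_X, eval_C] at h1
    by_cases h2 : v 2 = 0
    · have h0 : v 0 = 0 := by simpa [h2] using h1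
      refine ⟨.zero, ⟨v 1, funext fun j => by fin_cases j <;> simp [cco, h0, h2]⟩, ?_⟩
      rintro (_ | ⟨x, y, h⟩) ⟨c, hc⟩
      · rfl
      · obtain rfl : c = 0 := by simpa [cco, h2] using (congrFun hc 2).symm
        exact (hv (by simpa using hc)).elim
    · have h3 : Nonsingular (⟨0, 0, 0, A, B⟩ : WeierstrassCurve L).toAffine (v 0 / v 2)
          (v 1 / v 2) := by
        refine (equation_iff_nonsingular_of_Δ_ne_zero fun e => hΔ ?_).1 ((equation_iff _ _).2 ?_)
        · simp only [WeierstrassCurve.Δ, WeierstrassCurve.b₂, WeierstrassCurve.b₄,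
            WeierstrassCurve.b₆, WeierstrassCurve.b₈] at e
          linear_combination (-1 / 16 : L) * e
        · simp only
          field_simp
          linear_combination -h1
      refine ⟨.some _ _ h3, ⟨v 2, funext fun j => by
        fin_cases j <;> simp [cco, mul_div_cancel₀ _ h2]⟩, ?_⟩
      rintro (_ | ⟨x, y, h⟩) ⟨c, hc⟩
      · exact (h2 (by simpa [cco] using congrFun hc 2)).elim
      · obtain rfl : v 2 = c := by simpa [cco] using congrFun hc 2
        have e0 : v 0 = v 2 * x := by simpa [cco] using congrFun hc 0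
        have e1 : v 1 = v 2 * y := by simpa [cco] using congrFun hc 1
        congr 1
        exacts [by rw [e0, mul_div_cancel_left₀ _ h2], by rw [e1, mul_div_cancel_left₀ _ h2]]
  · obtain ⟨e, a, h⟩ := bl_ne p₀ (-q₀)
    have k : ∀ p q : Point (⟨0, 0, 0, A, B⟩ : WeierstrassCurve L).toAffine, ∀ a,
        eval (Sum.elim (cco p) (cco q)) (bl (C A) (C B)
          (fun i j => X (.inl i) * (C (![1, -1, 1] j) * X (.inr j))) e a) =
        bl A B (fun i j => cco p i * cco (-q) j) e a := fun p q a => by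
      rw [bl_map, ← bl_neg]
      simp
    refine ⟨_, _, bl_hom (fun i j => ?_) e, ⟨a, (k _ _ a).trans_ne h⟩, fun p q => ?_⟩
    · exact (isWeightedHomogeneous_X L _ _).mul ((isWeightedHomogeneous_X L _ _).C_mul _)
    · simpa only [k, sub_eq_add_neg] using bl_add e p (-q)

end Pool.Agent.Lib.MP_651af7_nt.Sl
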