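import Mathlib

/-! The function field of the curve `ω ^ 2 = x ^ 2 τ ^ 4 + w τ ^ 3 + n`. -/

namespace Pool.Agent.Lib.MP_651af7_nt.Sl

open Polynomial
open IntermediateField (adjoin)

variable {F : Type} [Field F] [CharZero F] {x w n : F}

theorem quad_nsq (hw : w ≠ 0) (hn : n ≠ 0) {r : RatFunc F} (hr : r ≠ 0) (c : F) :
    r ^ 2 * algebraMap F[X] _ (C (x ^ 2) * X ^ 4 + C w * X ^ 3 + C n) ≠ RatFunc.C c := fun e => by
  have h0 : (C (x ^ 2) * X ^ 4 + C w * X ^ 3 + C n : F[X]) ≠ 0 := fun e =>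
    hn (by simpa using congrArg (coeff · 0) e)
  have hc : c ≠ 0 := by
    rintro rfl
    exact mul_ne_zero (pow_ne_zero _ hr) (RatFunc.algebraMap_ne_zero h0) (e.trans (map_zero _))
  have h1 : (RatFunc.C c / r) ^ 2 =
      algebraMap F[X] _ (C c * (C (x ^ 2) * X ^ 4 + C w * X ^ 3 + C n)) := by
    rw [map_mul, RatFunc.algebraMap_C, div_pow, div_eq_iff (pow_ne_zero _ hr)]
    linear_combination (-RatFunc.C c) * e
  obtain ⟨g, hg⟩ := IsIntegrallyClosed.exists_algebraMap_eq_of_isIntegral_pow (R := F[X])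
    two_pos (h1 ▸ isIntegral_algebraMap)
  rw [← hg, ← map_pow, (IsFractionRing.injective F[X] (RatFunc F)).eq_iff] at h1
  have h2 : g.coeff 3 = 0 := coeff_eq_zero_of_natDegree_lt (by
    have : (g ^ 2).natDegree ≤ 4 := by
      rw [h1]
      compute_degree
    rw [natDegree_pow] at this
    omega)
  have c0 := congrArg (coeff · 0) h1
  have c1 := congrArg (coeff · 1) h1
  have c3 := congrArg (coeff · 3) h1
  simp only [coeff_C_mul, coeff_add, coeff_X_pow, coeff_C] at c0 c1 c3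
  simp [sq, coeff_mul, Finset.Nat.antidiagonal_succ, h2] at c0 c1 c3
  have g0 : g.coeff 0 ≠ 0 := fun e => mul_ne_zero hc hn (by rw [← c0, e, zero_mul])
  have g1 : g.coeff 1 = 0 := mul_left_cancel₀ (mul_ne_zero two_ne_zero g0)
    (by linear_combination c1)
  exact mul_ne_zero hc hw (by rw [← c3, g1]; ring)

theorem exists_quad (x : F) (hw : w ≠ 0) (hn : n ≠ 0) :
    ∃ (K : Type) (_ : Field K) (_ : Algebra F K) (τ ω : K) (s : K →ₐ[F] K), s τ = τ ∧ s ω = -ω ∧
      ω ^ 2 = aeval τ (C (x ^ 2) * X ^ 4 + C w * X ^ 3 + C n) ∧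
      (∀ p q : F[X], aeval τ p + aeval τ q * ω = 0 → p = 0 ∧ q = 0) ∧ adjoin F {τ, ω} = ⊤ ∧
      ∀ z : K, IsAlgebraic F z → z ∈ Set.range (algebraMap F K) := by
  obtain ⟨D, hD⟩ : ∃ D : RatFunc F,
    D = algebraMap F[X] _ (C (x ^ 2) * X ^ 4 + C w * X ^ 3 + C n) := ⟨_, rfl⟩
  have k : ∀ r : RatFunc F, r ≠ 0 → ∀ c, r ^ 2 * D ≠ RatFunc.C c := fun r hr c =>
    hD ▸ quad_nsq hw hn hr c
  have : Fact (∀ r : RatFunc F, r ^ 2 ≠ D + 0 * r) := ⟨fun r e => by
    rw [zero_mul, add_zero] at e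
    have hr : r ≠ 0 := fun h => k 1 one_ne_zero 0 (by simp [← e, h])
    exact k r⁻¹ (inv_ne_zero hr) 1 (by rw [← e, map_one]; field_simp)⟩
  let K := QuadraticAlgebra (RatFunc F) D 0
  let s : K →ₐ[RatFunc F] K := 
    { starRingEnd K with commutes' := fun r => show star _ = _ by ext <;> simp [K] }
  have s1 : ∀ z, s z = star z := fun _ => rfl
  have ha : ∀ p : F[X], aeval (algebraMap (RatFunc F) K RatFunc.X) p =
      algebraMap (RatFunc F) K (algebraMap F[X] _ p) := fun p => by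
    rw [aeval_algebraMap_apply, RatFunc.aeval_X_left_eq_algebraMap]
  have hc : ∀ r : RatFunc F, IsAlgebraic F (algebraMap _ K r) → ∃ c, r = RatFunc.C c :=
    fun r h => by_contra fun e => RatFunc.transcendental_of_ne_C r e
      ((isAlgebraic_algebraMap_iff (algebraMap (RatFunc F) K).injective).1 h)
  refine ⟨K, inferInstance, inferInstance, algebraMap (RatFunc F) K RatFunc.X,
    QuadraticAlgebra.omega, s.restrictScalars F, s.commutes _, ?_, ?_, fun p q e => ?_, ?_,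
    fun z hz => ?_⟩
  · exact (s1 _).trans (by unfold K; ext <;> simp)
  · rw [ha, ← hD, sq]
    ext <;> simp [K]
  · rw [ha, ha] at e
    have e1 := congrArg QuadraticAlgebra.re e
    have e2 := congrArg QuadraticAlgebra.im e
    simp [K] at e1 e2
    exact ⟨e1, e2⟩
  · refine eq_top_iff.2 fun z _ => ?_
    have h1 : ∀ p : F[X], algebraMap (RatFunc F) K (algebraMap F[X] _ p) ∈
        adjoin F {algebraMap (RatFunc F) K RatFunc.X, QuadraticAlgebra.omega} := fun p =>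
      ha p ▸ IntermediateField.adjoin.mono _ _ _ (Set.singleton_subset_iff.2 (.inl rfl))
        (IntermediateField.algebra_adjoin_le_adjoin _ _ (aeval_mem_adjoin_singleton _ _))
    have h2 : ∀ r : RatFunc F, algebraMap (RatFunc F) K r ∈
        adjoin F {algebraMap (RatFunc F) K RatFunc.X, QuadraticAlgebra.omega} := fun r => by
      rw [← r.num_div_denom, map_div₀]
      exact div_mem (h1 _) (h1 _)
    rw [show z = algebraMap _ K z.re + algebraMap _ K z.im * QuadraticAlgebra.omega by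
      ext <;> simp [K]]
    exact add_mem (h2 _) (mul_mem (h2 _) (IntermediateField.subset_adjoin _ _ (.inr rfl)))
  · have h1 : IsAlgebraic F (star z) := hz.algHom (s.restrictScalars F)
    have f1 : algebraMap (RatFunc F) K (2 * z.re) = z + star z := by
      unfold K
      ext <;> simp [two_mul]
    have f2 : algebraMap (RatFunc F) K ((2 * z.im) ^ 2 * D) = (z - star z) ^ 2 := by
      unfold K
      ext <;> simp only [sq, QuadraticAlgebra.algebraMap_re, QuadraticAlgebra.algebraMap_im] <;>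
        simp
      ring
    obtain ⟨c, e1⟩ := hc _ (f1 ▸ hz.add h1)
    obtain ⟨c', e2⟩ := hc _ (f2 ▸ (hz.sub h1).pow 2)
    have e3 : z.im = 0 := by_contra fun e => k _ (mul_ne_zero two_ne_zero e) _ e2
    refine ⟨c / 2, ?_⟩
    rw [IsScalarTower.algebraMap_apply F (RatFunc F) K]
    ext
    · rw [QuadraticAlgebra.algebraMap_re, map_div₀, map_ofNat, RatFunc.algebraMap_eq_C, ← e1]
      ring
    · simp [K, e3]

theorem quad_two {K : Type} [Field K] [Algebra F K] {τ ω : K} {s : K →ₐ[F] K} (hx : x ≠ 0)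
    (h1 : s τ = τ) (h2 : s ω = -ω) (h3 : ω ^ 2 = aeval τ (C (x ^ 2) * X ^ 4 + C w * X ^ 3 + C n))
    (h4 : aeval τ (C w * X ^ 3 + C n) ≠ 0) {O : ValuationSubring K}
    (hF : ∀ z, algebraMap F K z ∈ O) (ht : τ ∉ O) : O ≠ O.comap s.toRingHom := fun e => by
  have k : ∀ u ∈ O, s u ∈ O := fun u hu => (show u ∈ O.comap s.toRingHom from e ▸ hu)
  have t0 : τ ≠ 0 := fun h => ht (h ▸ O.zero_mem)
  have ti := (O.mem_or_inv_mem τ).resolve_left ht
  simp only [map_add, map_mul, map_pow, aeval_C, aeval_X] at h3 h4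
  obtain ⟨a, ha⟩ : ∃ a, a = algebraMap F K x := ⟨_, rfl⟩
  have a0 : a ≠ 0 := ha ▸ (_root_.map_ne_zero _).2 hx
  have sa : s a = a := ha ▸ s.commutes x
  have e1 : (ω - a * τ ^ 2) * (-ω - a * τ ^ 2) =
      -(algebraMap F K w * τ ^ 3 + algebraMap F K n) := by
    rw [← ha] at h3
    linear_combination -h3
  obtain ⟨z1, z2⟩ := mul_ne_zero_iff.1 (e1.trans_ne (neg_ne_zero.2 h4))
  have s1 : s (ω - a * τ ^ 2) = -ω - a * τ ^ 2 := by simp [h1, h2, sa]
  have s2 : s (-ω - a * τ ^ 2) = ω - a * τ ^ 2 := by simp [h1, h2, sa]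
  have m : (ω - a * τ ^ 2) / (-ω - a * τ ^ 2) ∈ O ∧ (-ω - a * τ ^ 2) / (ω - a * τ ^ 2) ∈ O := by
    rcases O.mem_or_inv_mem ((ω - a * τ ^ 2) / (-ω - a * τ ^ 2)) with h | h
    · exact ⟨h, by simpa only [map_div₀, s1, s2] using k _ h⟩
    · rw [inv_div] at h
      exact ⟨by simpa only [map_div₀, s1, s2] using k _ h, h⟩
  have two : (2 : K) ≠ 0 := by
    rw [← map_ofNat (algebraMap F K) 2]
    exact (_root_.map_ne_zero _).2 two_ne_zero
  refine ht ?_
  convert mul_mem (mul_mem (neg_mem (add_mem (add_mem m.1 m.2) (hF 2)))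
    (add_mem (hF w) (mul_mem (hF n) (pow_mem ti 3)))) (hF ((2 * x)⁻¹ ^ 2)) using 1
  have e2 : algebraMap F K w + algebraMap F K n * τ⁻¹ ^ 3 =
      -((ω - a * τ ^ 2) * (-ω - a * τ ^ 2)) / τ ^ 3 := by
    rw [e1]
    field_simp
  rw [e2, map_pow, map_inv₀, map_mul, ← ha, map_ofNat]
  have e3 : (ω - a * τ ^ 2 + (-ω - a * τ ^ 2)) ^ 2 = 4 * a ^ 2 * τ ^ 4 := by ring
  generalize ω - a * τ ^ 2 = z at *
  generalize -ω - a * τ ^ 2 = z' at *
  field_simp
  linear_combination -e3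

end Pool.Agent.Lib.MP_651af7_nt.Sl
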