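import Pool.Agent.Lib.MP_651af7_nt.Sl.Main
import Pool.Agent.Lib.MP_651af7_nt.Sl.Cub
import Pool.Agent.Lib.MP_651af7_nt.Sl.Quad

/-! Points `(a / d ^ 2, b / d ^ 3)` of an elliptic curve with `a ^ 2 + b + n` a square. -/

namespace Pool.Agent.Lib.MP_651af7_nt.Sl

open MvPolynomial Finset Height NumberField Real Fc Ds
open IntermediateField (adjoin)

theorem ex_spec {k K M ι : Type} [Field k] [Field K] [Algebra k K] [CommRing M] (α : M →+* K)
    (β : M →+* k) {D : M} {ω : K} {y : k} (h1 : ω ^ 2 = α D) (h2 : y ^ 2 = β D)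
    (h3 : ∀ p q, α p + α q * ω = 0 → β p = 0 ∧ β q = 0)
    (h4 : ∀ c, ∃ p, α p = algebraMap k K c ∧ β p = c) {ξ : ι → K} {v : ι → k}
    (h5 : ∀ j, ∃ p q, ξ j = α p + α q * ω ∧ v j = β p + β q * y) (P : MvPolynomial ι k)
    (h : aeval ξ P = 0) : eval v P = 0 := by
  suffices ∃ p q, aeval ξ P = α p + α q * ω ∧ eval v P = β p + β q * y by
    obtain ⟨p, q, e1, e2⟩ := this
    obtain ⟨e3, e4⟩ := h3 p q (e1 ▸ h)
    rw [e2, e3, e4, zero_mul, add_zero]
  clear h
  induction P using MvPolynomial.induction_on with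
  | C c =>
    obtain ⟨p, e1, e2⟩ := h4 c
    exact ⟨p, 0, by simp [e1], by simp [e2]⟩
  | add P Q hP hQ =>
    obtain ⟨p, q, e1, e2⟩ := hP
    obtain ⟨p', q', e3, e4⟩ := hQ
    exact ⟨p + p', q + q', by simp only [map_add, e1, e3]; ring,
      by simp only [map_add, e2, e4]; ring⟩
  | mul_X P j hP =>
    obtain ⟨p, q, e1, e2⟩ := hP
    obtain ⟨p', q', e3, e4⟩ := h5 j
    exact ⟨p * p' + q * q' * D, p * q' + q * p',
      by simp only [map_add, map_mul, e1, e3, aeval_X, ← h1]; ring,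
      by simp only [map_add, map_mul, e2, e4, eval_X, ← h2]; ring⟩

variable {k : Type} [Field k] [NumberField k] {A B : k}

theorem cub_bar (hΔ : 4 * A ^ 3 + 27 * B ^ 2 ≠ 0) : Abelian ((Ideal.span {cub A B}).map
    (MvPolynomial.map (algebraMap k (AlgebraicClosure k)))) := by
  rw [Ideal.map_span, Set.image_singleton, show MvPolynomial.map _ (cub A B) =
    cub (algebraMap k (AlgebraicClosure k) A) (algebraMap k _ B) by simp [cub]]
  refine cub_abelian fun e => hΔ ((algebraMap k (AlgebraicClosure k)).injective ?_)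
  simpa [map_ofNat] using e

theorem ex_gen (hΔ : 4 * A ^ 3 + 27 * B ^ 2 ≠ 0) :
    ∃ (F : Type) (_ : Field F) (_ : Algebra k F) (η : Fin 3 → F), η 2 = 1 ∧ η 0 ≠ 0 ∧ η 1 ≠ 0 ∧
      adjoin k (Set.range η) = ⊤ ∧ ∀ (P : MvPolynomial (Fin 3) k) (d : ℕ), P.IsHomogeneous d →
        (aeval η P = 0 ↔ P ∈ Ideal.span {cub A B}) := by
  obtain ⟨F, _, _, y, i, h1, h2, D⟩ := exists_dat (cub_span A B) (cub_bar hΔ)
  have h0 : ∀ j, y j ≠ 0 := fun j e => by
    obtain ⟨Q, hQ⟩ := Ideal.mem_span_singleton'.1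
      ((D.gen (X j) 1 (isHomogeneous_X k j)).1 (by simpa using e))
    have := congrArg (homogeneousComponent 1) hQ
    rw [homogeneousComponent_of_mem (isHomogeneous_X k j), if_pos rfl,
      ← sum_homogeneousComponent Q, sum_mul, map_sum, sum_eq_zero fun i _ => by
        rw [homogeneousComponent_of_mem
          ((homogeneousComponent_isHomogeneous i Q).mul (cub_hom A B)), if_neg (by omega)]] at this
    exact X_ne_zero j this.symm
  refine ⟨F, inferInstance, inferInstance, fun j => (y 2)⁻¹ * y j, inv_mul_cancel₀ (h0 2),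
    mul_ne_zero (inv_ne_zero (h0 2)) (h0 0), mul_ne_zero (inv_ne_zero (h0 2)) (h0 1),
    eq_top_iff.2 (h2 ▸ IntermediateField.adjoin_le_iff.2 ?_), fun P d hP => ?_⟩
  · rintro _ ⟨j, rfl⟩
    have := div_mem (IntermediateField.subset_adjoin k (Set.range fun j => (y 2)⁻¹ * y j) ⟨j, rfl⟩)
      (IntermediateField.subset_adjoin k (Set.range fun j => (y 2)⁻¹ * y j) ⟨i, rfl⟩)
    simp only [h1, mul_div_mul_left _ _ (inv_ne_zero (h0 2)), div_one] at this
    exact this
  · rw [Av.hom_smul_iff hP (inv_ne_zero (h0 2)), D.gen P d hP]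

theorem ex_bound (hΔ : 4 * A ^ 3 + 27 * B ^ 2 ≠ 0) {n : k} (hn : n ≠ 0) :
    ∃ (Z : Set k) (c : ℝ), Z.Finite ∧ ∀ S : Finset (FinitePlace k), ∃ C : ℝ, ∀ a b d y : k, d ≠ 0 →
      b ^ 2 = a ^ 3 + A * a * d ^ 4 + B * d ^ 6 → y ^ 2 = a ^ 2 + b + n → a / d ^ 2 ∉ Z →
      logHeight₁ (a / d ^ 2) ≤ c * ∑ᶠ w ∈ (S : Set (FinitePlace k))ᶜ,
        (|log (⨆ j, w (![a * d, b, d ^ 3] j))| + log⁺ (⨆ l, w (![d, a, y] l))) + C := by
  obtain ⟨F, _, _, η, h2, h0, h1, ht, hg⟩ := ex_gen hΔ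
  have : CharZero F := charZero_of_injective_algebraMap (algebraMap k F).injective
  have n0 : algebraMap k F n ≠ 0 := (map_ne_zero _).2 hn
  obtain ⟨K, _, _, τ, ω, s, s1, s2, q1, q2, q3, q4⟩ := exists_quad (η 0) h1 n0
  let _ : Algebra k K := ((algebraMap F K).comp (algebraMap k F)).toAlgebra
  have : IsScalarTower k F K := .of_algebraMap_eq' rfl
  have tr : ∀ p : Polynomial F, Polynomial.aeval τ p = 0 → p = 0 := fun p e =>
    (q2 p 0 (by simpa using e)).1
  have t0 : τ ≠ 0 := fun e => Polynomial.X_ne_zero (tr _ (by simpa using e))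
  let ξ : Fin 3 → K := fun j => τ ^ 3 * algebraMap F K (η j)
  let σ : Fin 3 → K := ![τ, τ ^ 2 * algebraMap F K (η 0), ω]
  have x2 : ξ 2 = τ ^ 3 := by simp [ξ, h2]
  have x3 : ∀ j, ξ j / ξ 2 = algebraMap F K (η j) := fun j => by
    rw [x2, mul_div_cancel_left₀ _ (pow_ne_zero _ t0)]
  have hξ : ∀ P, aeval ξ P = 0 ↔ P ∈ Ideal.span {cub A B} := fun P => by
    have e : aeval ξ P = Polynomial.aeval τ (∑ d ∈ range (P.totalDegree + 1),
        Polynomial.monomial (3 * d) (aeval η (homogeneousComponent d P))) := by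
      conv_lhs => rw [← sum_homogeneousComponent P]
      rw [map_sum, map_sum]
      refine sum_congr rfl fun d _ => ?_
      rw [Av.aeval_mul_of_hom (homogeneousComponent_isHomogeneous d P), Polynomial.aeval_monomial,
        ← pow_mul, mul_comm]
      exact congrArg (· * _) (aeval_algebraMap_apply K η _)
    rw [e]
    refine ⟨fun h => ?_, fun h => ?_⟩
    · rw [← sum_homogeneousComponent P]
      refine sum_mem fun d hd => (hg _ d (homogeneousComponent_isHomogeneous d P)).1 ?_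
      have := congrArg (Polynomial.coeff · (3 * d)) (tr _ h)
      simpa [Polynomial.coeff_monomial, mem_range.1 hd, Nat.lt_succ_iff.1 (mem_range.1 hd)]
        using this
    · rw [sum_eq_zero fun d _ => by
        rw [(hg _ d (homogeneousComponent_isHomogeneous d P)).2 (cub_span A B P h d), map_zero],
        map_zero]
  have a0 : ∀ j, IsAlgebraic (Algebra.adjoin k (Set.range ξ)) (ξ j) := fun j =>
    isAlgebraic_algebraMap (⟨ξ j, Algebra.subset_adjoin ⟨j, rfl⟩⟩ : Algebra.adjoin k (Set.range ξ))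
  have a1 : IsAlgebraic (Algebra.adjoin k (Set.range ξ)) τ := .of_pow three_pos (x2 ▸ a0 2)
  have a2 : IsAlgebraic (Algebra.adjoin k (Set.range ξ)) (τ ^ 2 * algebraMap F K (η 0)) := by
    rw [show τ ^ 2 * algebraMap F K (η 0) = ξ 0 * τ⁻¹ by simp only [ξ]; field_simp]
    exact (a0 0).mul a1.inv
  have q5 : ω ^ 2 = (τ ^ 2 * algebraMap F K (η 0)) ^ 2 + ξ 1 + algebraMap k K n := by
    rw [q1, IsScalarTower.algebraMap_apply k F K]
    simp only [ξ, map_add, map_mul, map_pow, Polynomial.aeval_C, Polynomial.aeval_X]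
    ring
  have hσ : ∀ l, IsAlgebraic (Algebra.adjoin k (Set.range ξ)) (σ l) := fun l => by
    fin_cases l
    exacts [a1, a2, .of_pow two_pos (q5 ▸ ((a2.pow 2).add (a0 1)).add (isAlgebraic_algebraMap
      (algebraMap k (Algebra.adjoin k (Set.range ξ)) n)))]
  have hF : adjoin k (Set.range fun j => ξ j / ξ 2) = (IsScalarTower.toAlgHom k F K).fieldRange := by
    rw [AlgHom.fieldRange_eq_map, ← ht, IntermediateField.adjoin_map, ← Set.range_comp]
    exact congrArg _ (congrArg _ (funext x3))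
  have hK : adjoin k (Set.range (Sum.elim ξ σ)) = ⊤ := by
    have m := fun j => IntermediateField.subset_adjoin k (Set.range (Sum.elim ξ σ)) ⟨j, rfl⟩
    have l : (IsScalarTower.toAlgHom k F K).fieldRange ≤ adjoin k (Set.range (Sum.elim ξ σ)) :=
      hF ▸ IntermediateField.adjoin_le_iff.2 (Set.range_subset_iff.2 fun j =>
        div_mem (m (.inl j)) (m (.inl 2)))
    refine eq_top_iff.2 fun z _ => ?_
    have hz : z ∈ adjoin F {τ, ω} := q3 ▸ IntermediateField.mem_top
    exact (Subfield.closure_le (t := (adjoin k (Set.range (Sum.elim ξ σ))).toSubfield)).2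
      (Set.union_subset (Set.range_subset_iff.2 fun c => l ⟨c, rfl⟩)
        (Set.pair_subset (m (.inr 0)) (m (.inr 2)))) hz
  have hc : ∀ z : K, IsAlgebraic (IsScalarTower.toAlgHom k F K).fieldRange z →
      z ∈ (IsScalarTower.toAlgHom k F K).fieldRange := fun z hz =>
    q4 z (IsAlgebraic.of_ringHom_of_comp_eq
      (AlgEquiv.ofInjectiveField (IsScalarTower.toAlgHom k F K)).toRingEquiv.toRingHom
      (RingHom.id K) hz (AlgEquiv.ofInjectiveField (IsScalarTower.toAlgHom k F K)).surjective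
      Function.injective_id rfl)
  obtain ⟨O, o1, o2⟩ := @Subring.exists_le_valuationSubring_of_isIntegrallyClosedIn K _ τ
    (IsScalarTower.toAlgHom k F K).fieldRange.toSubring
    (fun ⟨c, e⟩ => Polynomial.X_sub_C_ne_zero c (tr _ (by simpa [sub_eq_zero] using e.symm)))
    (Subring.isIntegrallyClosedIn_iff.2 fun z hz => hc z hz.isAlgebraic)
  have o3 : τ ^ 3 ∉ O := fun h => o2 ((O.mem_or_inv_mem τ).elim id fun h' => by
    convert mul_mem h (pow_mem h' 2) using 1
    field_simp)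
  obtain ⟨Θ, e, c, t1, t2, hb⟩ := Sl.main k 3 3 _ (cub_span A B) (cub_bar hΔ) K ξ σ hξ hσ hK 2 _ hF.symm
    hc O _ (quad_two h0 s1 s2 q1 (fun e => n0 (by
      simpa using congrArg (Polynomial.coeff · 0) (tr _ e))) (fun z => o1 ⟨z, rfl⟩) o2)
    (by
      rintro _ ⟨z, rfl⟩
      exact ⟨o1 ⟨z, rfl⟩, show s (algebraMap F K z) ∈ O from (s.commutes z).symm ▸ o1 ⟨z, rfl⟩⟩)
    ⟨x2 ▸ o3, fun h => o3 (by simpa [x2, s1] using (show s (ξ 2) ∈ O from h))⟩
  have b0 : IsAlgebraic (Algebra.adjoin k (Set.range fun _ : Unit => η 0)) (η 0) :=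
    isAlgebraic_algebraMap (⟨η 0, Algebra.subset_adjoin ⟨(), rfl⟩⟩ :
      Algebra.adjoin k (Set.range fun _ : Unit => η 0))
  have b1 := fun c => isAlgebraic_algebraMap (A := F)
    (algebraMap k (Algebra.adjoin k (Set.range fun _ : Unit => η 0)) c)
  obtain ⟨R, r1, r2⟩ := exists_norm (ξ := fun _ : Unit => η 0) (σ := η) (Θ := rename .inr Θ)
    (fun l => by
      fin_cases l
      · exact b0
      · refine .of_pow two_pos ?_
        have := (hg _ _ (cub_hom A B)).2 (Ideal.mem_span_singleton_self _)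
        have e : η 1 ^ 2 = η 0 ^ 3 + algebraMap k F A * η 0 + algebraMap k F B := by
          simp [cub, h2] at this
          linear_combination -this
        exact e ▸ ((b0.pow 3).add ((b1 A).mul b0)).add (b1 B)
      · exact (show η 2 = 1 from h2) ▸ isAlgebraic_one)
    (by rw [aeval_rename]; exact fun h => t2 ((hg _ _ t1).1 h))
  have g1 : ∀ {T : Type} [CommRing T] [Algebra k T] (z : T), Polynomial.aeval z
      (aeval (fun _ : Unit => (Polynomial.X : Polynomial k)) R) = aeval (fun _ => z) R :=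
    fun z => by
      rw [← AlgHom.comp_apply, comp_aeval]
      simp
  refine ⟨_, c, Polynomial.finite_setOfPred_isRoot (p := aeval (fun _ => Polynomial.X) R)
    fun e => r1 (by rw [← g1, e, map_zero]), fun S => (hb S).imp fun C₀ hC a b d y d0 e1 e2 hZ => ?_⟩
  have sp : ∀ P, aeval η P = 0 → eval ![a / d ^ 2, b / d ^ 3, 1] P = 0 := fun P hP =>
    Av.Spec.affine (w := η) (w' := ![a / d ^ 2, b / d ^ 3, 1]) (fun P _ hP e => by
      obtain ⟨Q, rfl⟩ := Ideal.mem_span_singleton'.1 ((hg _ _ hP).1 e)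
      rw [map_mul]
      refine mul_eq_zero_of_right _ ?_
      simp [cub]
      field_simp
      linear_combination -e1) h2 rfl P hP
  have v0 : ![a * d, b, d ^ 3] = fun j => d ^ 3 * ![a / d ^ 2, b / d ^ 3, 1] j := by
    funext j
    fin_cases j <;> simp <;> field_simp
  refine le_trans (le_of_eq_of_le (congrArg _ ?_) (Av.logHeight₁_div_le
    (fun o : Option (Fin 3) => o.elim 1 ![a * d, b, d ^ 3]) (some 0) (some 2))) (hC _ _ ?_ fun h => ?_)
  · simp
    field_simp
  · let α : Polynomial (MvPolynomial (Fin 3) k) →+* K :=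
      (Polynomial.aeval τ).toRingHom.comp (Polynomial.mapRingHom (aeval η).toRingHom)
    let β : Polynomial (MvPolynomial (Fin 3) k) →+* k :=
      Polynomial.eval₂RingHom (eval ![a / d ^ 2, b / d ^ 3, 1]) d
    have z : ∀ p, Polynomial.map (aeval η).toRingHom p = 0 → β p = 0 := fun p hp =>
      (Polynomial.eval₂_eq_sum_range _ _).trans (sum_eq_zero fun i _ => by
        rw [sp _ (by simpa using congrArg (Polynomial.coeff · i) hp), zero_mul])
    refine ex_spec α β (D := .C (X 0 * X 0) * .X ^ 4 + .C (X 1) * .X ^ 3 + .C (C n)) (ω := ω) (y := y)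
      ?_ ?_ (fun p q e => (q2 _ _ e).imp (z p) (z q)) (fun c => ⟨.C (C c), ?_, by simp [β]⟩) ?_
    · simp [α, q1, sq (η 0)]
    · simp [β, e2]
      field_simp
    · simp [α, IsScalarTower.algebraMap_apply k F K]
    · rintro (j | j)
      · exact ⟨.X ^ 3 * .C (X j), 0, by simp [α, ξ]; ring, by simp [β, v0]; ring⟩
      · fin_cases j
        · exact ⟨.X, 0, by simp [α, σ], by simp [β]⟩
        · exact ⟨.X ^ 2 * .C (X 0), 0, by simp [α, σ]; ring, by simp [β]; field_simp⟩
        · exact ⟨0, 1, by simp [α, σ], by simp [β]⟩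
  · refine hZ ((congrFun (Polynomial.coe_aeval_eq_eval _) _).symm.trans ((g1 _).trans
      (r2 _ ![a / d ^ 2, b / d ^ 3, 1] (fun P hP => ?_) ?_)))
    · have := sp (rename (Sum.elim (fun _ => 0) id) P) (by
        rw [aeval_rename, Sum.comp_elim]; exact hP)
      rwa [eval_rename, Sum.comp_elim] at this
    · rw [eval_rename]
      exact (Av.hom_smul_iff t1 (pow_ne_zero 3 d0) _).1 (v0 ▸ h)

theorem ex_square (A B n : ℤ) (hΔ : 4 * A ^ 3 + 27 * B ^ 2 ≠ 0) (hn : n ≠ 0) :
    {p : ℤ × ℤ × ℤ | p.2.2 ≠ 0 ∧ IsCoprime p.1 p.2.2 ∧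
      p.2.1 ^ 2 = p.1 ^ 3 + A * p.1 * p.2.2 ^ 4 + B * p.2.2 ^ 6 ∧
        IsSquare (p.1 ^ 2 + p.2.1 + n)}.Finite := by
  obtain ⟨Z, c, hZ, h⟩ := ex_bound (k := ℚ) (A := A) (B := B) (n := n) (by exact_mod_cast hΔ)
    (by exact_mod_cast hn)
  obtain ⟨C, h⟩ := h ∅
  have sq : ∀ m : ℤ, {b : ℤ | b ^ 2 = m}.Finite := fun m =>
    (Set.finite_Icc (-m) m).subset fun b hb =>
      abs_le.1 ((Int.le_self_sq |b|).trans_eq ((sq_abs b).trans hb))
  refine ((hZ.union (finite_setOfPred_logHeight₁_le (K := ℚ) C)).biUnion fun x _ =>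
    (Set.finite_singleton x.num).prod ((sq (x.num ^ 3 + A * x.num * x.den ^ 2 + B * x.den ^ 3)).prod
      (sq x.den))).subset ?_
  rintro ⟨a, b, d⟩ ⟨d0, h1, h2, y, h3⟩
  have h4 := Int.isCoprime_iff_nat_coprime.1 (h1.pow_right (n := 2))
  have e1 : ((a : ℚ) / d ^ 2).num = a := by
    simpa using Rat.num_div_eq_of_coprime (sq_pos_of_ne_zero d0) h4
  have e2 : (((a : ℚ) / d ^ 2).den : ℤ) = d ^ 2 := by
    simpa using Rat.den_div_eq_of_coprime (sq_pos_of_ne_zero d0) h4
  refine Set.mem_biUnion (x := (a : ℚ) / d ^ 2) (or_iff_not_imp_left.2 fun hz => ?_)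
    ⟨e1.symm, by simp only [Set.mem_ofPred_eq, e1, e2]; linear_combination h2, e2.symm⟩
  have := h a b d y (by exact_mod_cast d0) (by exact_mod_cast h2)
    (by exact_mod_cast (pow_two y).trans h3.symm) hz
  rwa [finsum_mem_eq_zero_of_forall_eq_zero fun w _ => ?_, mul_zero, zero_add] at this
  have l : ∀ m : ℤ, w (m : ℚ) ≤ 1 := fun m =>
    IsNonarchimedean.apply_intCast_le_one (f := w.1) w.add_le
  obtain ⟨u, v, huv⟩ : IsCoprime b (d ^ 3) := by
    refine IsCoprime.pow_right (IsCoprime.of_mul_left_left (y := b) ?_)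
    rw [show b * b = a ^ 3 + d * (A * a * d ^ 3 + B * d ^ 5) by linear_combination h2]
    exact (h1.pow_left (m := 3)).add_mul_left_left _
  have m := le_ciSup (Finite.bddAbove_range fun j => w (![(a : ℚ) * d, b, d ^ 3] j))
  have e : (1 : ℚ) = u * b + v * d ^ 3 := by exact_mod_cast huv.symm
  have m1 : (1 : ℝ) ≤ ⨆ j, w (![(a : ℚ) * d, b, d ^ 3] j) := by
    rw [← map_one w, e]
    refine (w.add_le _ _).trans (max_le ?_ ?_) <;> rw [map_mul]
    exacts [(mul_le_of_le_one_left (w.1.nonneg _) (l u)).trans (m 1),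
      (mul_le_of_le_one_left (w.1.nonneg _) (l v)).trans (m 2)]
  rw [(posLog_eq_zero_iff _).2 ?_, ← m1.antisymm (ciSup_le fun j => ?_), log_one, abs_zero, add_zero]
  · fin_cases j
    exacts [by simpa using l (a * d), l b, (congrArg w (Int.cast_pow d 3)).ge.trans (l _)]
  · rw [abs_of_nonneg (Real.iSup_nonneg fun _ => apply_nonneg w _)]
    refine ciSup_le fun j => ?_
    fin_cases j
    exacts [l d, l a, l y]

end Pool.Agent.Lib.MP_651af7_nt.Sl
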