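import Pool.Agent.Lib.MP_651af7_nt.Sl.Core

/-! Bases adapted to a pole. -/

namespace Pool.Agent.Lib.MP_651af7_nt.Sl

open Finset Module Submodule Fc

variable {F K : Type} [Field F] [Field K] [Algebra F K] {t : K}

theorem filt {r w D : ℕ} (T : Fin r → K) {O : ValuationSubring K}
    (hO : ∀ z : F, algebraMap F K z ∈ O) (ha : t ∉ O) (hT : ∀ l, T l / t ^ D ∈ O) {b : Fin w → K}
    (hb : ∀ z ∈ O, ∃ c : Fin w → F, (z - ∑ i, c i • b i) * t ∈ O) :
    ∃ (G : Matrix (Fin r) (Fin r) F) (j : Fin r → ℕ), G.det ≠ 0 ∧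
      (∀ l, (∑ m, G l m • T m) / t ^ D * t ^ j l ∈ O) ∧ r * r ≤ 2 * w * ∑ l, j l + r * w := by
  classical
  have a0 : t ≠ 0 := fun h => ha (h ▸ O.zero_mem)
  have hm : ∀ (c : F), ∀ z ∈ O, c • z ∈ O := fun c z hz =>
    Algebra.smul_def c z ▸ O.mul_mem _ _ (hO c) hz
  let W : ℕ → Submodule F K := fun j =>
    { carrier := {z | z * t ^ j ∈ O}
      add_mem' := fun h h' => by simpa only [Set.mem_ofPred_eq, add_mul] using add_mem h h'
      zero_mem' := by simp
      smul_mem' := fun c z h => by simpa only [Set.mem_ofPred_eq, smul_mul_assoc] using hm c _ h }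
  let L := LinearMap.mulRight F (t ^ D)⁻¹ ∘ₗ Fintype.linearCombination F T
  have hL : ∀ x, L x ∈ O := fun x => by
    simp only [L, LinearMap.comp_apply, Fintype.linearCombination_apply, map_sum, map_smul,
      LinearMap.mulRight_apply]
    exact sum_mem fun m _ => hm _ _ (div_eq_mul_inv (T m) _ ▸ hT m)
  let U : ℕ → Finset K := fun j => (range j ×ˢ univ).image fun p : ℕ × Fin w => b p.2 / t ^ p.1
  have hU : ∀ j, ∀ z ∈ O, z ∈ span F (U j : Set K) ⊔ W j := by
    intro j z hz
    induction j with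
    | zero => exact mem_sup_right (show z * t ^ 0 ∈ O by simpa using hz)
    | succ j ih =>
      obtain ⟨y, hy, z', hz', rfl⟩ := Submodule.mem_sup.1 ih
      obtain ⟨c, hc⟩ := hb _ hz'
      refine add_mem (mem_sup_left (span_mono (coe_subset.2 (image_subset_image
        (product_subset_product_left (by simp)))) hy)) (Submodule.mem_sup.2
        ⟨∑ i, c i • (b i / t ^ j), sum_mem fun i _ => smul_mem _ _ (subset_span
          (mem_coe.2 (mem_image_of_mem _ (a := (j, i)) (by simp)))), _, ?_, add_sub_cancel _ _⟩)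
      change _ * t ^ (j + 1) ∈ O
      simp only [div_eq_mul_inv, ← smul_mul_assoc, ← sum_mul]
      rwa [pow_succ, ← mul_assoc, sub_mul, inv_mul_cancel_right₀ (pow_ne_zero j a0)]
  have w0 : 0 < w := Nat.pos_of_ne_zero fun h => by
    subst h
    obtain ⟨c, hc⟩ := hb 1 O.one_mem
    exact ha (by simpa using hc)
  obtain ⟨G, j, g1, g2, g3⟩ := fa_main (l := w) (fun j => (W j).comap L)
    (antitone_nat_of_succ_le fun j => comap_mono fun z (hz : z * t ^ (j + 1) ∈ O) => by
      have := O.mul_mem _ _ hz ((O.mem_or_inv_mem _).resolve_left ha)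
      rwa [pow_succ, ← mul_assoc, mul_inv_cancel_right₀ a0] at this)
    (eq_top_iff.2 fun x _ => show L x * t ^ 0 ∈ O by simpa using hL x)
    (fun j => by
      have h3 := fa_le L _ _ fun x => hU j _ (hL x)
      have h4 := (finrank_span_finset_le_card (R := F) (U j)).trans card_image_le
      rw [finrank_fin_fun] at h3
      rw [Set.finrank, card_product, card_range, card_fin] at h4
      omega) (r / w)
  refine ⟨G, j, g1, fun l => ?_, fg_num (Nat.div_mul_le_self r w) (Nat.lt_div_mul_add w0) g3⟩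
  rw [div_eq_mul_inv, ← Fintype.linearCombination_apply]
  exact g2 l

theorem sum_lev {r d m : ℕ} (e : Fin r ≃ Fin (d + 1) × Fin m) :
    r = (d + 1) * m ∧ 2 * ∑ l, (e l).1.1 = r * d := by
  have h1 : r = (d + 1) * m := by simpa using Fintype.card_congr e
  refine ⟨h1, ?_⟩
  rw [e.sum_comp fun q => q.1.1, Fintype.sum_prod_type]
  simp only [sum_const, card_univ, Fintype.card_fin, smul_eq_mul, ← mul_sum]
  rw [Fin.sum_univ_eq_sum_range fun i => i, mul_left_comm, mul_comm 2, sum_range_id_mul_two, h1]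
  simp only [Nat.add_sub_cancel]
  ring

theorem loc_bas {r d m c : ℕ} (e : Fin r ≃ Fin (d + 1) × Fin m) (hd : m * (2 * c + 3) ≤ d)
    (ht : t ≠ 0) {ω : Fin m → K} {O : ValuationSubring K} (hO : ∀ z : F, algebraMap F K z ∈ O)
    (h1 : ∀ l, (t ∈ O → ω l ∈ O) ∧ (t ∉ O → ω l / t ^ c ∈ O))
    (h2 : t ∉ O → ∃ n, n < m ∧ ∃ b : Fin n → K, ∀ z ∈ O,
      ∃ c : Fin n → F, (z - ∑ i, c i • b i) * t ∈ O) {a : Fin 2} (ha : Max O ![1, t] a)
    (x : Fin 2 → Fin 1) : ∃ G : Matrix (Fin r) (Fin r) F, G.det ≠ 0 ∧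
      (∏ l, (∑ i, G l i • (t ^ (e i).1.1 * ω (e i).2)) / ![1, t] a ^ d) ^ 1 *
        ∏ j, (![1, t] a ^ 1 / ![![1], ![t]] j (x j)) ^ ![∑ l, (e l).1.1 + 1, ∑ l, (e l).1.1] j ∈ O := by
  classical
  obtain ⟨s1, s2⟩ := sum_lev e
  simp only [pow_one, Fin.prod_univ_two, Matrix.cons_val_zero, Matrix.cons_val_one,
    Matrix.cons_val_fin_one, div_one]
  by_cases h : t ∈ O
  · refine ⟨1, by simp, ?_⟩
    have h3 := prod_mem fun l (_ : l ∈ univ) => (h1 (e l).2).1 h
    simp only [Matrix.one_apply, ite_smul, one_smul, zero_smul, sum_ite_eq, mem_univ, if_true]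
    fin_cases a
    · simpa [prod_mul_distrib, prod_pow_eq_pow_sum, mul_right_comm, ht] using h3
    · have h4 : t⁻¹ ∈ O := by simpa using ha.2 0
      exact mul_mem (prod_mem fun l _ => div_eq_mul_inv _ (t ^ d) ▸ mul_mem (mul_mem (pow_mem h _)
        ((h1 _).1 h)) (inv_pow t d ▸ pow_mem h4 d)) (mul_mem (pow_mem h _)
          (pow_mem (div_eq_mul_inv t t ▸ mul_mem h h4) _))
  · obtain rfl : a = 1 := by
      fin_cases a
      · exact absurd (by simpa using ha.2 1) h
      · rfl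
    have h4 : t⁻¹ ∈ O := (O.mem_or_inv_mem _).resolve_left h
    obtain ⟨n, hn, b, hb⟩ := h2 h
    obtain ⟨G, j, g1, g2, g3⟩ := filt (D := d + c) (fun i => t ^ (e i).1.1 * ω (e i).2) hO h
      (fun l => by
        obtain ⟨i, hi⟩ := Nat.exists_eq_add_of_le (Nat.lt_succ_iff.1 (e l).1.2)
        have := mul_mem ((h1 (e l).2).2 h) (pow_mem h4 i)
        convert this using 1
        rw [show d + c = (e l).1.1 + i + c by omega, inv_pow]
        field_simp
        ring) hb
    have g4 : ∑ l, (e l).1.1 + 1 + r * c ≤ ∑ l, j l := by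
      have r0 : 1 ≤ r := by rw [s1]; exact Nat.mul_pos d.succ_pos (by omega)
      have n0 : 0 < n := Nat.pos_of_ne_zero fun h => by subst h; simp at g3; omega
      refine Nat.le_of_mul_le_mul_left (c := 2 * n) ?_ (by omega)
      have k1 : n * d + 3 * n + 2 * n * c ≤ r := by
        rw [s1]
        nlinarith [Nat.mul_le_mul_left (d + 1) (Nat.succ_le_of_lt hn),
          Nat.mul_le_mul_right (2 * c + 3) hn.le]
      nlinarith [Nat.mul_le_mul_left r k1, Nat.mul_le_mul_left n r0, congrArg (n * ·) s2]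
    obtain ⟨i, hi⟩ := Nat.exists_eq_add_of_le g4
    refine ⟨G, g1, ?_⟩
    have := mul_mem (prod_mem fun l (_ : l ∈ univ) => g2 l) (pow_mem h4 i)
    convert this using 1
    simp only [Matrix.cons_val_one, Matrix.cons_val_fin_one, div_self ht, one_pow, mul_one,
      prod_mul_distrib, prod_div_distrib, prod_pow_eq_pow_sum, hi, sum_const, card_univ,
      Fintype.card_fin, smul_eq_mul, inv_pow]
    field_simp
    ring

end Pool.Agent.Lib.MP_651af7_nt.Sl
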