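import Pool.Agent.Lib.MP_651af7_nt.Sl.Fil
import Pool.Agent.Lib.MP_651af7_nt.Tb.Gc4

/-! The inequality at one point. -/

namespace Pool.Agent.Lib.MP_651af7_nt.Sl

open MvPolynomial Finset Height NumberField Real Tb
open Rt (Pl av mu)

variable {k ι κ τ : Type} [Field k] [NumberField k] [Finite ι] [Finite κ]
  {S : Finset (FinitePlace k)}

omit [NumberField k] in
theorem ls_one (x : ι → k) (w : AbsoluteValue k ℝ) :
    ls (fun o : Option ι => o.elim 1 x) w = log⁺ (⨆ i, w (x i)) := by
  rw [posLog_eq_log_max_one (iSup_nonneg fun _ => w.nonneg _), ls]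
  refine congrArg log (le_antisymm (ciSup_le ?_) (max_le ?_ (Real.iSup_le (fun i => ?_) ?_)))
  · rintro (_ | i)
    · exact (map_one w).le.trans (le_max_left _ _)
    · exact (Finite.le_ciSup (fun i => w (x i)) i).trans (le_max_right _ _)
  · exact (map_one w).ge.trans (Finite.le_ciSup (fun o : Option ι => w (o.elim 1 x)) none)
  · exact Finite.le_ciSup (fun o : Option ι => w (o.elim 1 x)) (some i)
  · exact iSup_nonneg fun _ => w.nonneg _

theorem fs_pos (x : ι → k) : FS fun w => log⁺ (⨆ i, w (x i)) := by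
  simpa only [← ls_one] using fs_ls fun o : Option ι => o.elim 1 x

omit [NumberField k] [Finite ι] in
theorem pos_le (x : ι → k) (w : AbsoluteValue k ℝ) : log⁺ (⨆ i, w (x i)) ≤ |ls x w| :=
  max_le (abs_nonneg _) (le_abs_self _)

/-- Values of polynomials at the places outside `S`. -/
theorem out_poly [Fintype τ] (Q : τ → MvPolynomial (ι ⊕ κ) k) :
    ∃ (D : ℕ) (C : ℝ), ∀ (S : Finset (FinitePlace k)) (v : ι → k) (s : κ → k),
      (fun i => eval (Sum.elim v s) (Q i)) ≠ 0 → oS S (ls fun i => eval (Sum.elim v s) (Q i)) ≤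
        D * oS S (fun w => |ls v w| + log⁺ (⨆ l, w (s l))) + C := by
  choose R h1 h2 using fun i => As.exists_homog none (rename some (Q i))
    (d := univ.sup fun i => (rename some (Q i)).totalDegree)
    (le_sup (f := fun i => (rename some (Q i)).totalDegree) (mem_univ i))
  let c : (Σ i, (R i).support) → k := fun a => coeff a.2.1 (R a.1)
  refine ⟨univ.sup fun i => (rename some (Q i)).totalDegree,
    logHeight fun o : Option _ => o.elim 1 c, fun S v s h0 => ?_⟩
  have f1 := ((fs_ls v).abs.add (fs_pos s)).mul (univ.sup fun i => (rename some (Q i)).totalDegree :)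
  have h3 := oS_mono (S := S) (fs_ls _) (f1.add (fs_pos c)) fun w _ => ls_le h0 fun i => by
    have e := h2 i k (fun o => o.elim 1 (Sum.elim v s)) rfl
    rw [aeval_rename] at e
    refine (congrArg w.1 e.symm).trans_le ((IsNonarchimedean.eval_mvPolynomial_le
      (FinitePlace.add_le w) (h1 i) _).trans ?_)
    rw [add_comm, exp_add, exp_nat_mul]
    refine mul_le_mul (Real.iSup_le (fun a => ?_) (exp_pos _).le) (pow_le_pow_left₀
      (iSup_nonneg fun _ => w.1.nonneg _) (Real.iSup_le ?_ (exp_pos _).le) _) (pow_nonneg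
        (iSup_nonneg fun _ => w.1.nonneg _) _) (exp_pos _).le
    · rw [← ls_one]
      exact le_exp_ls (fun o : Option _ => o.elim 1 c) w.1 (some ⟨i, a⟩)
    · have k1 := abs_nonneg (ls v w.1)
      have k2 : 0 ≤ log⁺ (⨆ l, w.1 (s l)) := posLog_nonneg
      rintro (_ | a | a)
      · exact (map_one w.1).le.trans (one_le_exp (add_nonneg k1 k2))
      · exact (le_exp_ls v w.1 a).trans (exp_le_exp.2 (by linarith [le_abs_self (ls v w.1)]))
      · refine (le_exp_ls (fun o : Option κ => o.elim 1 s) w.1 (some a)).trans (exp_le_exp.2 ?_)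
        rw [ls_one]
        linarith
  rw [oS_add f1 (fs_pos c), oS_mul _ ((fs_ls v).abs.add (fs_pos s))] at h3
  have h4 := ht_split S (x := fun o : Option _ => o.elim 1 c) fun e => one_ne_zero (congrFun e none)
  rw [show ls (fun o : Option _ => o.elim 1 c) = _ from funext (ls_one c)] at h4
  linarith [iS_nonneg (S := S) (f := fun w => log⁺ (⨆ i, w (c i))) fun _ => posLog_nonneg]

omit [NumberField k] in
theorem sup_two (u : k) (w : AbsoluteValue k ℝ) : ⨆ i, w (![1, u] i) = max 1 (w u) := by
  refine le_antisymm (ciSup_le fun i => ?_) (max_le ?_ ?_)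
  · fin_cases i <;> simp
  · simpa using Finite.le_ciSup (fun i => w (![1, u] i)) 0
  · simpa using Finite.le_ciSup (fun i => w (![1, u] i)) 1

theorem pt {x v : ι → k} {u : k} (hu : u ≠ 0) {a : ι} (hx : x a = 1) (hv : ∀ i, v i = u * x i)
    {s r d : ℕ} (hs : 1 ≤ s) (hr : 2 * s = r * d) {hm oz R : ℝ} (h1 : s * logHeight x ≤ hm)
    (h2 : ((s + 1 : ℕ) : ℝ) * iS S (fun w => log (max 1 (w u))) +
      s * iS S (fun w => log (max 1 (w u) / w u)) + hm ≤
      r * (d * iS S (fun w => log (max 1 (w u))) + oz) + R) :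
    logHeight (fun o : Option ι => o.elim 1 v) ≤ (s + 1) * oS S (fun w => |ls v w|) + r * oz + R := by
  have x0 : x ≠ 0 := fun e => one_ne_zero (hx.symm.trans (congrFun e a))
  have v0 : v ≠ 0 := fun e => hu (by simpa [hv, hx] using congrFun e a)
  have x1 : ∀ w, 0 ≤ ls x w := fun w => by
    simpa only [hx, map_one, log_one] using le_ls x w (i := a) (by rw [hx]; exact one_ne_zero)
  have e1 : ∀ w, ls v w = log (w u) + ls x w := fun w => by
    rw [ls, ls, ← log_mul (w.pos hu).ne' (Es.sup_pos w x0).ne', Real.mul_iSup_of_nonneg (w.nonneg _)]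
    simp only [hv, map_mul]
  have e2 : iS S (fun w => log (max 1 (w u) / w u)) =
      iS S (fun w => log (max 1 (w u))) - iS S fun w => log (w u) := by
    rw [← iS_sub]
    exact congrArg _ (funext fun w => log_div (by positivity) (w.pos hu).ne')
  have e3 : logHeight x = iS S (fun w => log (w u)) + iS S (ls x) + oS S (ls v) := by
    rw [← logHeight_smul_eq_logHeight x hu, show u • x = v from (funext hv).symm, ht_split S v0,
      ← iS_add, show ls v = _ from funext e1]
  have e4 : iS S (fun w => log⁺ (⨆ i, w (v i))) ≤ iS S (fun w => log (max 1 (w u))) + iS S (ls x) := by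
    rw [← iS_add]
    refine iS_mono fun p => max_le (add_nonneg (log_nonneg (le_max_left _ _)) (x1 _)) ?_
    exact (e1 _).trans_le (add_le_add_left (log_le_log ((av p).pos hu) (le_max_right _ _)) _)
  have e5 := oS_mono (S := S) (fs_pos v) (fs_ls v).abs fun w _ => pos_le v w.1
  have e6 := oS_mono (S := S) ((fs_ls v).mul (-1)) (fs_ls v).abs fun w _ => by
    linarith [neg_abs_le (ls v w.1)]
  rw [oS_mul _ (fs_ls v)] at e6
  have e7 : (2 : ℝ) * s = r * d := by exact_mod_cast hr
  have e8 : (1 : ℝ) ≤ s := Nat.one_le_cast.2 hs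
  have e9 := mul_le_mul_of_nonneg_right e8 (iS_nonneg (S := S) x1)
  have e10 := mul_le_mul_of_nonneg_left e6 (Nat.cast_nonneg (α := ℝ) s)
  have e11 := congrArg (· * iS S fun w => log (max 1 (w u))) e7
  rw [ht_split S fun e => one_ne_zero (congrFun e none),
    show ls (fun o : Option ι => o.elim 1 v) = _ from funext (ls_one v)]
  rw [e2] at h2
  rw [e3] at h1
  push_cast at h2
  linarith

end Pool.Agent.Lib.MP_651af7_nt.Sl
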